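import Mathlib

/-!
# Representation functions of additive bases in commutative monoids: ordered and unordered
-/

set_option autoImplicit false

open Finset

namespace Pool.Agent.Q247.ET

/-- the unordered representations of `n` as a sum of `h` elements of `A` -/
def reps {M : Type*} [AddCommMonoid M] (A : Set M) (h : ℕ) (n : M) : Set (Multiset M) :=
  {s | Multiset.card s = h ∧ (∀ a ∈ s, a ∈ A) ∧ s.sum = n}

/-- `A` is an asymptotic basis of order `h`: all but finitely many elements of the monoid are sums
of `h` elements of `A` -/
def AsymptoticBasis {M : Type*} [AddCommMonoid M] (A : Set M) (h : ℕ) : Prop :=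
  {n : M | reps A h n = ∅}.Finite

/-- **The Erdős–Turán conjecture of order `h` for the monoid `M`**: every asymptotic basis of order
`h` has an unbounded representation function. -/
def ErdosTuran (M : Type*) [AddCommMonoid M] (h : ℕ) : Prop :=
  ∀ A : Set M, AsymptoticBasis A h → ∀ K : ℕ, ∃ n : M, (K : ℕ∞) < (reps A h n).encard

section
variable {M : Type*} [AddCommMonoid M]

/-- the ordered representations -/
def tup (A : Set M) (h : ℕ) (n : M) : Set (Fin h → M) := {f | (∀ i, f i ∈ A) ∧ ∑ i, f i = n}

/-- at most `K` ordered representations -/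
def Bd (A : Set M) (h K : ℕ) : Prop :=
  ∀ (n : M) (s : Finset (Fin h → M)), (∀ f ∈ s, f ∈ tup A h n) → s.card ≤ K

/-- exact basis -/
def Bas (A : Set M) (h : ℕ) : Prop := ∀ n, (tup A h n).Nonempty

theorem encard_le_iff {α : Type*} (S : Set α) (K : ℕ) :
    S.encard ≤ K ↔ ∀ s : Finset α, (∀ f ∈ s, f ∈ S) → s.card ≤ K := by
  classical
  constructor
  · intro h s hs
    have h1 : ((s : Set α)).encard ≤ S.encard := Set.encard_le_encard hs
    rw [Set.encard_coe_eq_coe_finsetCard] at h1
    exact_mod_cast h1.trans h
  · intro h
    by_contra hc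
    rw [not_le] at hc
    have hfin : ∃ t : Finset α, (t : Set α) ⊆ S ∧ t.card = K + 1 := by
      obtain hi | hf := S.infinite_or_finite.symm.symm
      · exact hi.exists_subset_card_eq _
      · have h2 : K + 1 ≤ hf.toFinset.card := by
          have h3 : S.encard = hf.toFinset.card := by
            rw [← Set.encard_coe_eq_coe_finsetCard, Set.Finite.coe_toFinset]
          rw [h3] at hc
          exact_mod_cast hc
        obtain ⟨t, ht, htc⟩ := Finset.exists_subset_card_eq h2
        exact ⟨t, fun x hx => by simpa using ht hx, htc⟩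
    obtain ⟨t, ht, htc⟩ := hfin
    have := h t ht
    omega

theorem Bd.encard_le {A : Set M} {h K : ℕ} (hA : Bd A h K) (n : M) : (tup A h n).encard ≤ K :=
  (encard_le_iff _ _).2 (hA n)

theorem Bd.finite {A : Set M} {h K : ℕ} (hA : Bd A h K) (n : M) : (tup A h n).Finite :=
  Set.finite_of_encard_le_coe (hA.encard_le n)

theorem Bd.mono {A : Set M} {h K K' : ℕ} (hA : Bd A h K) (hK : K ≤ K') : Bd A h K' :=
  fun n s hs => (hA n s hs).trans hK

theorem reps_eq_image (A : Set M) (h : ℕ) (n : M) :
    reps A h n = (fun f : Fin h → M => (Multiset.map f Finset.univ.val)) '' tup A h n := by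
  ext s
  constructor
  · rintro ⟨h1, h2, h3⟩
    induction s using Quotient.inductionOn with
    | h l =>
      have h1' : l.length = h := h1
      subst h1'
      refine ⟨l.get, ⟨fun i => h2 _ (List.get_mem l i), ?_⟩, ?_⟩
      · have : ∑ i, l.get i = (Multiset.map l.get Finset.univ.val).sum := rfl
        rw [this, Fin.univ_val_map, List.ofFn_get]
        exact h3
      · show Multiset.map l.get Finset.univ.val = (l : Multiset M)
        rw [Fin.univ_val_map, List.ofFn_get]
  · rintro ⟨f, ⟨h1, h2⟩, rfl⟩
    refine ⟨by simp, ?_, h2⟩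
    intro a ha
    obtain ⟨i, _, rfl⟩ := Multiset.mem_map.1 ha
    exact h1 i

theorem reps_eq_empty_iff (A : Set M) (h : ℕ) (n : M) : reps A h n = ∅ ↔ tup A h n = ∅ := by
  rw [reps_eq_image, Set.image_eq_empty]

/-- bounds for the unordered representations give bounds for the ordered ones -/
theorem bd_of_reps {A : Set M} {h K : ℕ} (hK : ∀ n, (reps A h n).encard ≤ K) :
    Bd A h (h ^ h * K) := by
  classical
  intro n s hs
  have h1 := Finset.card_le_mul_card_image (f := fun f : Fin h → M =>
    (Multiset.map f Finset.univ.val)) s (h ^ h) (by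
      intro b hb
      obtain ⟨f0, _, hf0⟩ := Finset.mem_image.1 hb
      have hcard : b.card = h := by rw [← hf0]; simp
      have h2 : (s.filter (fun f => Multiset.map f Finset.univ.val = b)) ⊆
          Fintype.piFinset (fun _ : Fin h => b.toFinset) := by
        intro f hf
        rw [Finset.mem_filter] at hf
        rw [Fintype.mem_piFinset]
        intro i
        rw [Multiset.mem_toFinset, ← hf.2]
        exact Multiset.mem_map_of_mem _ (Finset.mem_univ i)
      refine (Finset.card_le_card h2).trans ?_
      rw [Fintype.card_piFinset]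
      simp only [Finset.prod_const, Finset.card_univ, Fintype.card_fin]
      exact Nat.pow_le_pow_left ((Multiset.toFinset_card_le b).trans hcard.le) _)
  refine h1.trans (Nat.mul_le_mul_left _ ?_)
  refine (encard_le_iff _ _).1 (hK n) _ ?_
  intro b hb
  obtain ⟨f, hf, rfl⟩ := Finset.mem_image.1 hb
  rw [reps_eq_image]
  exact ⟨f, hs f hf, rfl⟩

theorem reps_of_bd {A : Set M} {h K : ℕ} (hA : Bd A h K) (n : M) : (reps A h n).encard ≤ K := by
  rw [reps_eq_image]
  exact (Set.encard_image_le _ _).trans (hA.encard_le n)

/-- the transfer lemma -/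
theorem card_le {α C N : Type*} [Fintype C] [AddCommMonoid N] {A : Set N} {h K : ℕ} (hA : Bd A h K)
    (s : Finset α) (code : α → C) (G : α → (Fin h → N)) (hmem : ∀ f ∈ s, ∀ i, G f i ∈ A)
    (hsum : ∀ f ∈ s, ∀ f' ∈ s, code f = code f' → ∑ i, G f i = ∑ i, G f' i)
    (hinj : ∀ f ∈ s, ∀ f' ∈ s, code f = code f' → G f = G f' → f = f') :
    s.card ≤ K * Fintype.card C := by
  classical
  have h1 := Finset.card_le_mul_card_image (f := code) s K (by
    intro b hb
    obtain ⟨f0, hf0s, hf0⟩ := Finset.mem_image.1 hb
    have h2 : ((s.filter fun f => code f = b).image G).card = (s.filter fun f => code f = b).card := by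
      apply Finset.card_image_of_injOn
      intro f hf f' hf' he
      simp only [Finset.coe_filter, Set.mem_ofPred_eq] at hf hf'
      exact hinj f hf.1 f' hf'.1 (hf.2.trans hf'.2.symm) he
    rw [← h2]
    apply hA (∑ i, G f0 i)
    intro g hg
    obtain ⟨f, hf, rfl⟩ := Finset.mem_image.1 hg
    rw [Finset.mem_filter] at hf
    exact ⟨hmem f hf.1, hsum f hf.1 f0 hf0s (hf.2.trans hf0.symm)⟩)
  exact h1.trans (Nat.mul_le_mul_left _ (Finset.card_le_univ _))

end

section
variable {M : Type*} [AddCommMonoid M] [IsCancelAdd M]

/-- adding one element -/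
theorem bd_insert {A : Set M} {h K : ℕ} (hA : Bd A h K) {a : M} (ha : a ∈ A) (c : M) :
    Bd (insert c A) h (K * 2 ^ h) := by
  classical
  intro n s hs
  have h1 := card_le hA s (fun f : Fin h → M => (fun i => decide (f i = c) : Fin h → Bool))
    (fun f i => if f i = c then a else f i) (by
      intro f hf i
      by_cases hi : f i = c
      · simpa [hi] using ha
      · have := (hs f hf).1 i
        rw [Set.mem_insert_iff] at this
        simpa [hi] using this.resolve_left hi) (by
      intro f hf f' hf' he
      have key : ∀ g : Fin h → M, (∑ i, if g i = c then a else g i) + (∑ i, if g i = c then c else 0) =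
          ∑ i, g i + ∑ i, if g i = c then a else 0 := by
        intro g
        rw [← Finset.sum_add_distrib, ← Finset.sum_add_distrib]
        refine Finset.sum_congr rfl fun i _ => ?_
        by_cases hi : g i = c
        · simp [hi, add_comm]
        · simp [hi]
      have he' : ∀ i, (f i = c) = (f' i = c) := by
        intro i
        have := congrFun he i
        simpa using this
      have h2 := key f
      have h3 := key f'
      rw [(hs f hf).2] at h2
      rw [(hs f' hf').2] at h3
      have h4 : (∑ i, if f' i = c then c else 0) = ∑ i, if f i = c then c else 0 :=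
        Finset.sum_congr rfl fun i _ => by simp only [he' i]
      have h5 : (∑ i, if f' i = c then a else 0) = ∑ i, if f i = c then a else 0 :=
        Finset.sum_congr rfl fun i _ => by simp only [he' i]
      rw [h4, h5, ← h2] at h3
      exact (add_right_cancel h3).symm) (by
      intro f hf f' hf' he hG
      funext i
      have he' : (f i = c) = (f' i = c) := by
        have := congrFun he i
        simpa using this
      have hGi := congrFun hG i
      by_cases hi : f i = c
      · rw [hi, (he'.mp hi : f' i = c)]
      · have hi' : ¬ f' i = c := fun h => hi (he'.mpr h)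
        simpa [hi, hi'] using hGi)
  simpa using h1

theorem bd_union {A : Set M} {h : ℕ} (hne : A.Nonempty) {K : ℕ} (hA : Bd A h K) (F : Finset M) :
    ∃ K', Bd (A ∪ F) h K' := by
  classical
  induction F using Finset.induction_on with
  | empty => exact ⟨K, by simpa using hA⟩
  | insert c F hc ih =>
    obtain ⟨K', hK'⟩ := ih
    obtain ⟨a, ha⟩ := hne
    refine ⟨K' * 2 ^ h, ?_⟩
    have := bd_insert hK' (Or.inl ha) c
    rwa [Finset.coe_insert, Set.union_insert]

/-- from asymptotic bases to bases -/
theorem not_erdosTuran_iff [Infinite M] {h : ℕ} (hh : 1 ≤ h) :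
    ¬ ErdosTuran M h ↔ ∃ (A : Set M) (K : ℕ), Bas A h ∧ Bd A h K := by
  classical
  constructor
  · intro hE
    unfold ErdosTuran at hE
    push Not at hE
    obtain ⟨A, hA, K, hK⟩ := hE
    have hbd := bd_of_reps hK
    have hne : A.Nonempty := by
      by_contra hc
      rw [Set.not_nonempty_iff_eq_empty] at hc
      apply Set.infinite_univ (α := M)
      refine hA.subset ?_
      intro n _
      rw [Set.mem_ofPred_eq, reps_eq_empty_iff, Set.eq_empty_iff_forall_notMem]
      rintro f ⟨hf, _⟩
      have := hf ⟨0, hh⟩
      rw [hc] at this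
      exact this
    obtain ⟨K', hK'⟩ := bd_union hne hbd (insert 0 hA.toFinset)
    refine ⟨_, K', ?_, hK'⟩
    intro n
    by_cases hn : reps A h n = ∅
    · refine ⟨fun i => if i = ⟨0, hh⟩ then n else 0, ?_, ?_⟩
      · intro i
        right
        simp only [Finset.coe_insert, Set.mem_insert_iff]
        split_ifs
        · right
          exact (Set.Finite.mem_toFinset hA).2 hn
        · left; rfl
      · simp
    · rw [reps_eq_empty_iff, ← Ne, ← Set.nonempty_iff_ne_empty] at hn
      obtain ⟨f, hf, hs⟩ := hn
      exact ⟨f, fun i => Or.inl (hf i), hs⟩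
  · rintro ⟨A, K, hB, hK⟩ hE
    obtain ⟨n, hn⟩ := hE A (by
      have : {n : M | reps A h n = ∅} = ∅ := by
        rw [Set.eq_empty_iff_forall_notMem]
        intro n hn
        rw [Set.mem_ofPred_eq, reps_eq_empty_iff] at hn
        exact (hB n).ne_empty hn
      unfold AsymptoticBasis
      rw [this]
      exact Set.finite_empty) K
    exact absurd (reps_of_bd hK n) (not_le.2 hn)

end

end Pool.Agent.Q247.ET
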