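import Mathlib

/-!
# Additions with few carries
-/

set_option autoImplicit false

open Finset

namespace Pool.Agent.Q247.ET

/-- Legendre's formula -/
theorem legendre {g : ℕ} (hg : 2 ≤ g) : ∀ (R a : ℕ), a < g ^ R →
    (Nat.digits g a).sum + (g - 1) * ∑ i ∈ range R, a / g ^ (i + 1) = a := by
  intro R
  induction R with
  | zero => intro a ha; simp at ha; subst ha; simp
  | succ R ih =>
    intro a ha
    rcases Nat.eq_zero_or_pos a with rfl | hpos
    · simp
    · rw [Nat.digits_def' (by omega) hpos, List.sum_cons, Finset.sum_range_succ']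
      have h1 : a / g < g ^ R := by
        rw [Nat.div_lt_iff_lt_mul (by omega), ← pow_succ]
        exact ha
      have h2 := ih (a / g) h1
      have h3 : ∑ i ∈ range R, a / g ^ (i + 1 + 1) = ∑ i ∈ range R, a / g / g ^ (i + 1) := by
        refine Finset.sum_congr rfl fun i _ => ?_
        rw [Nat.div_div_eq_div_mul, ← pow_succ']
      rw [h3, zero_add, pow_one]
      have h4 := Nat.mod_add_div a g
      generalize (Nat.digits g (a / g)).sum = d at *
      generalize ∑ i ∈ range R, a / g / g ^ (i + 1) = S at *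
      generalize a / g = q at *
      generalize a % g = r at *
      obtain ⟨g', rfl⟩ : ∃ g', g = g' + 1 := ⟨g - 1, by omega⟩
      simp only [Nat.add_sub_cancel] at *
      nlinarith [h2, h4]

/-- a sum of distinct powers below a power -/
theorem sum_pows_lt {g : ℕ} (hg : 2 ≤ g) {ι : Type*} (S : Finset ι) (e : ι → ℕ)
    (he : Set.InjOn e S) (N : ℕ) (hN : ∀ p ∈ S, e p < N) : ∑ p ∈ S, g ^ (e p) < g ^ N := by
  classical
  have h1 : ∑ p ∈ S, g ^ (e p) = ∑ i ∈ S.image e, g ^ i := by
    rw [Finset.sum_image he]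
  rw [h1]
  apply Nat.geomSum_lt hg
  intro k hk
  obtain ⟨p, hp, rfl⟩ := Finset.mem_image.1 hk
  exact hN p hp

/-- digit sum of a sum of distinct powers -/
theorem digitSum_pows {g : ℕ} (hg : 2 ≤ g) : ∀ (s : ℕ) (e : Fin s → ℕ), StrictMono e →
    (Nat.digits g (∑ p, g ^ (e p))).sum = s := by
  intro s
  induction s with
  | zero => intro e _; simp
  | succ s ih =>
    intro e he
    rw [Fin.sum_univ_castSucc]
    have hcs : StrictMono (fun p : Fin s => e p.castSucc) :=
      fun a b hab => he (Fin.castSucc_lt_castSucc_iff.2 hab)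
    have h1 : ∑ p : Fin s, g ^ (e p.castSucc) < g ^ (e (Fin.last s)) :=
      sum_pows_lt hg univ (fun p : Fin s => e p.castSucc) hcs.injective.injOn _
        fun p _ => he (Fin.castSucc_lt_last p)
    have h2 : (Nat.digits g (∑ p : Fin s, g ^ (e p.castSucc))).length ≤ e (Fin.last s) := by
      rwa [Nat.digits_length_le_iff (by omega)]
    obtain ⟨k, hk⟩ := Nat.exists_eq_add_of_le h2
    have h3 := Nat.digits_append_zeroes_append_digits (b := g) (k := k) (m := 1)
      (n := ∑ p : Fin s, g ^ (e p.castSucc)) (by omega) one_pos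
    rw [← hk, mul_one] at h3
    rw [← h3]
    have h4 : Nat.digits g 1 = [1] := Nat.digits_of_lt _ _ one_ne_zero (by omega)
    simp [ih _ hcs, h4]

/-- **additions with few carries**: if `∑ D G ^ (y p)` is the sum of the `a j`, with
`G = g ^ (c + 1)`, `D = g ^ c`, and the digit sums in base `g` of the `a j` add up to less than
`s + (g - 1) * (c + 1)`, then the base-`G` digits of the `a j` add up to `D` at all places `y p`, and
at all but `c` of these places one of the `a j` has the digit `D` -/
theorem carry {g c s h : ℕ} (hg : 2 ≤ g) (y : Fin s → ℕ) (hy : StrictMono y) (a : Fin h → ℕ)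
    (hsum : ∑ j, a j = ∑ p, g ^ c * (g ^ (c + 1)) ^ (y p))
    (hds : ∑ j, (Nat.digits g (a j)).sum < s + (g - 1) * (c + 1)) :
    ∃ x : Fin h → Fin s → ℕ, (∀ p, ∑ j, x j p = g ^ c) ∧
      (univ.filter fun p => ∀ j, x j p ≠ g ^ c).card ≤ c ∧
      ∀ j, a j = ∑ p, x j p * (g ^ (c + 1)) ^ (y p) := by
  classical
  have hg0 : 0 < g := by omega
  have hgp : ∀ i, 0 < g ^ i := fun i => pow_pos hg0 i
  obtain ⟨n, hn⟩ : ∃ n, n = ∑ p, g ^ c * (g ^ (c + 1)) ^ (y p) := ⟨_, rfl⟩
  obtain ⟨G, hG⟩ : ∃ G, G = g ^ (c + 1) := ⟨_, rfl⟩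
  have hGg : ∀ i, G ^ i = g ^ ((c + 1) * i) := fun i => by rw [hG, ← pow_mul]
  have hG2 : 2 ≤ G := by
    rw [hG]
    calc 2 ≤ g := hg
      _ = g ^ 1 := (pow_one g).symm
      _ ≤ g ^ (c + 1) := Nat.pow_le_pow_right hg0 (by omega)
  have hGD : G = g * g ^ c := by rw [hG, pow_succ']
  have hterm : ∀ i, g ^ c * G ^ i = g ^ ((c + 1) * i + c) := fun i => by
    rw [hGg, ← pow_add, add_comm]
  rw [← hn] at hsum
  rw [← hG] at hn ⊢
  have hnpow : n = ∑ p, g ^ ((c + 1) * y p + c) := by
    rw [hn]
    exact Finset.sum_congr rfl fun p _ => hterm _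
  have hmono : StrictMono (fun p => (c + 1) * y p + c) := fun p q hpq => by
    have h1 := hy hpq
    have h2 : (c + 1) * y p < (c + 1) * y q := Nat.mul_lt_mul_of_pos_left h1 (Nat.succ_pos c)
    show (c + 1) * y p + c < (c + 1) * y q + c
    omega
  have hdsn : (Nat.digits g n).sum = s := by
    rw [hnpow]
    exact digitSum_pows hg s _ hmono
  obtain ⟨R, hR⟩ : ∃ R, R = (c + 1) * (n + 1) := ⟨_, rfl⟩
  have hnR' : n < R := by
    rw [hR]
    calc n < n + 1 := Nat.lt_succ_self n
      _ = 1 * (n + 1) := (one_mul _).symm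
      _ ≤ (c + 1) * (n + 1) := Nat.mul_le_mul_right _ (by omega)
  have hnR : n < g ^ R := hnR'.trans (Nat.lt_pow_self (by omega))
  have han : ∀ j, a j ≤ n := fun j => by
    rw [← hsum]
    exact Finset.single_le_sum (f := a) (fun _ _ => Nat.zero_le _) (mem_univ j)
  have haR : ∀ j, a j < g ^ R := fun j => (han j).trans_lt hnR
  have hle : ∀ b, 0 < b → ∑ j, a j / b ≤ n / b := by
    intro b hb
    rw [Nat.le_div_iff_mul_le hb, Finset.sum_mul, ← hsum]
    exact Finset.sum_le_sum fun j _ => Nat.div_mul_le_self _ _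
  obtain ⟨kap, hkapdef⟩ : ∃ kap : ℕ → ℕ, ∀ i, kap i = n / g ^ i - ∑ j, a j / g ^ i :=
    ⟨_, fun _ => rfl⟩
  have hkap' : ∀ i, kap i + ∑ j, a j / g ^ i = n / g ^ i := fun i => by
    rw [hkapdef]
    exact Nat.sub_add_cancel (hle _ (hgp i))
  have hkap0 : kap 0 = 0 := by
    rw [hkapdef]
    simp [hsum]
  have hkapsum : ∑ i ∈ range (R + 1), kap i ≤ c := by
    rw [Finset.sum_range_succ', hkap0, add_zero]
    have h1 := legendre hg R n hnR
    have h2 : ∑ j, ((Nat.digits g (a j)).sum + (g - 1) * ∑ i ∈ range R, a j / g ^ (i + 1)) = n := by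
      rw [← hsum]
      exact Finset.sum_congr rfl fun j _ => legendre hg R _ (haR j)
    rw [Finset.sum_add_distrib, ← Finset.mul_sum, Finset.sum_comm] at h2
    have h3 : ∑ i ∈ range R, kap (i + 1) + ∑ i ∈ range R, ∑ j, a j / g ^ (i + 1) =
        ∑ i ∈ range R, n / g ^ (i + 1) := by
      rw [← Finset.sum_add_distrib]
      exact Finset.sum_congr rfl fun i _ => hkap' _
    rw [hdsn, ← h3] at h1
    by_contra hcon
    push Not at hcon
    have h4 : (g - 1) * (c + 1) ≤ (g - 1) * ∑ i ∈ range R, kap (i + 1) := Nat.mul_le_mul_left _ hcon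
    rw [mul_add] at h1
    omega
  have hcardS : ∀ S : Finset ℕ, (∀ i ∈ S, i ≤ R) → (∀ i ∈ S, 1 ≤ kap i) → S.card ≤ c := by
    intro S hS h1
    calc S.card = ∑ i ∈ S, 1 := by simp
      _ ≤ ∑ i ∈ S, kap i := Finset.sum_le_sum h1
      _ ≤ ∑ i ∈ range (R + 1), kap i :=
        Finset.sum_le_sum_of_subset fun i hi => mem_range.2 (by have := hS i hi; omega)
      _ ≤ c := hkapsum
  -- the quotients of `n`
  have hNi : ∀ i, n / G ^ i = ∑ p ∈ univ.filter (fun p => i ≤ y p), g ^ c * G ^ (y p - i) := by
    intro i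
    have h1 : n = ∑ p ∈ univ.filter (fun p => ¬ i ≤ y p), g ^ c * G ^ (y p) +
        G ^ i * ∑ p ∈ univ.filter (fun p => i ≤ y p), g ^ c * G ^ (y p - i) := by
      rw [hn, ← Finset.sum_filter_add_sum_filter_not univ (fun p => i ≤ y p), add_comm]
      congr 1
      rw [Finset.mul_sum]
      refine Finset.sum_congr rfl fun p hp => ?_
      have h2 : i ≤ y p := (mem_filter.1 hp).2
      calc g ^ c * G ^ (y p) = g ^ c * G ^ (i + (y p - i)) := by rw [Nat.add_sub_cancel' h2]
        _ = G ^ i * (g ^ c * G ^ (y p - i)) := by rw [pow_add]; ring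
    have h2 : ∑ p ∈ univ.filter (fun p => ¬ i ≤ y p), g ^ c * G ^ (y p) < G ^ i := by
      rw [hGg i, Finset.sum_congr rfl fun p _ => hterm (y p)]
      refine sum_pows_lt hg _ _ hmono.injective.injOn _ fun p hp => ?_
      have h3 : ¬ i ≤ y p := (mem_filter.1 hp).2
      have h4 : (c + 1) * (y p + 1) ≤ (c + 1) * i := Nat.mul_le_mul_left _ (by omega)
      rw [mul_add, mul_one] at h4
      omega
    rw [h1, Nat.add_mul_div_left _ _ (pow_pos (by omega) i), Nat.div_eq_of_lt h2, zero_add]
  have hdvd : ∀ i, g ^ c ∣ n / G ^ i := by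
    intro i
    rw [hNi]
    exact Finset.dvd_sum fun p _ => dvd_mul_right _ _
  have hstep : ∀ i, n / G ^ i = (univ.filter fun p => y p = i).card * g ^ c + G * (n / G ^ (i + 1)) := by
    intro i
    rw [hNi, hNi]
    have h1 : (univ.filter fun p : Fin s => i ≤ y p) =
        (univ.filter fun p => y p = i) ∪ (univ.filter fun p => i + 1 ≤ y p) := by
      ext p
      simp only [mem_filter, mem_univ, true_and, mem_union]
      omega
    rw [h1, Finset.sum_union, Finset.mul_sum]
    · congr 1
      · rw [← smul_eq_mul (a := (univ.filter fun p => y p = i).card), ← Finset.sum_const]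
        refine Finset.sum_congr rfl fun p hp => ?_
        rw [(mem_filter.1 hp).2, Nat.sub_self, pow_zero, mul_one]
      · refine Finset.sum_congr rfl fun p hp => ?_
        have h2 : i + 1 ≤ y p := (mem_filter.1 hp).2
        have h3 : y p - i = (y p - (i + 1)) + 1 := by omega
        rw [h3, pow_succ]
        ring
    · rw [Finset.disjoint_left]
      intro p hp hp'
      have h2 := (mem_filter.1 hp).2
      have h3 := (mem_filter.1 hp').2
      omega
  -- no carries between blocks
  have hK : ∀ i, n / G ^ i = ∑ j, a j / G ^ i := by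
    intro i
    by_contra hne
    have hpos : ∑ j, a j / G ^ i < n / G ^ i := lt_of_le_of_ne (hle _ (pow_pos (by omega) i)) (Ne.symm hne)
    have hiR : i ≤ n := by
      by_contra hc
      push Not at hc
      have : n / G ^ i = 0 := Nat.div_eq_of_lt (hc.trans (Nat.lt_pow_self (by omega)))
      omega
    have h1 : ((range (c + 1)).image fun t => (c + 1) * i + t).card ≤ c := by
      apply hcardS
      · intro k hk
        obtain ⟨t, ht, rfl⟩ := Finset.mem_image.1 hk
        rw [mem_range] at ht
        have h2 : (c + 1) * i ≤ (c + 1) * n := Nat.mul_le_mul_left _ hiR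
        rw [hR, mul_add, mul_one]
        omega
      · intro k hk
        obtain ⟨t, ht, rfl⟩ := Finset.mem_image.1 hk
        rw [mem_range] at ht
        have h2 : ∀ u, u / g ^ ((c + 1) * i + t) = u / G ^ i / g ^ t := fun u => by
          rw [pow_add, ← hGg, Nat.div_div_eq_div_mul]
        have h3 := hkap' ((c + 1) * i + t)
        rw [h2] at h3
        simp only [h2] at h3
        obtain ⟨q, hq⟩ : g ^ t ∣ n / G ^ i := (pow_dvd_pow g (by omega)).trans (hdvd i)
        have h4 : ∑ j, a j / G ^ i / g ^ t < n / G ^ i / g ^ t := by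
          have h5 : ∑ j, a j / G ^ i / g ^ t ≤ (∑ j, a j / G ^ i) / g ^ t := by
            rw [Nat.le_div_iff_mul_le (hgp t), Finset.sum_mul]
            exact Finset.sum_le_sum fun j _ => Nat.div_mul_le_self _ _
          refine h5.trans_lt ?_
          rw [hq, Nat.mul_div_cancel_left _ (hgp t)]
          rw [hq] at hpos
          exact Nat.div_lt_of_lt_mul hpos
        omega
    rw [Finset.card_image_of_injective _ (fun t t' htt => Nat.add_left_cancel htt), card_range] at h1
    omega
  -- the digits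
  have hdig : ∀ i, ∑ j, a j / G ^ i % G = (univ.filter fun p => y p = i).card * g ^ c := by
    intro i
    have h1 := hstep i
    rw [hK i, hK (i + 1), Finset.mul_sum] at h1
    have h2 : ∑ j, a j / G ^ i = ∑ j, a j / G ^ i % G + ∑ j, G * (a j / G ^ (i + 1)) := by
      rw [← Finset.sum_add_distrib]
      refine Finset.sum_congr rfl fun j _ => ?_
      rw [pow_succ, ← Nat.div_div_eq_div_mul]
      exact (Nat.mod_add_div _ _).symm
    omega
  have hexp : ∀ (K u : ℕ), u = ∑ i ∈ range K, (u / G ^ i % G) * G ^ i + G ^ K * (u / G ^ K) := by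
    intro K
    induction K with
    | zero => intro u; simp
    | succ K ih =>
      intro u
      have h1 : u / G ^ K % G + G * (u / G ^ (K + 1)) = u / G ^ K := by
        rw [pow_succ, ← Nat.div_div_eq_div_mul]
        exact Nat.mod_add_div _ _
      calc u = ∑ i ∈ range K, (u / G ^ i % G) * G ^ i + G ^ K * (u / G ^ K) := ih u
        _ = ∑ i ∈ range K, (u / G ^ i % G) * G ^ i +
            G ^ K * (u / G ^ K % G + G * (u / G ^ (K + 1))) := by rw [h1]
        _ = ∑ i ∈ range (K + 1), (u / G ^ i % G) * G ^ i + G ^ (K + 1) * (u / G ^ (K + 1)) := by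
          rw [Finset.sum_range_succ]
          ring
  have hcard1 : ∀ p, (univ.filter fun q => y q = y p).card = 1 := by
    intro p
    rw [Finset.card_eq_one]
    refine ⟨p, ?_⟩
    ext q
    simp only [mem_filter, mem_univ, true_and, mem_singleton]
    exact ⟨fun hq => hy.injective hq, fun hq => by rw [hq]⟩
  have hxsum : ∀ p, ∑ j, a j / G ^ (y p) % G = g ^ c := fun p => by
    rw [hdig, hcard1, one_mul]
  refine ⟨fun j p => a j / G ^ (y p) % G, hxsum, ?_, ?_⟩
  · have h1 : ((univ.filter fun p => ∀ j, a j / G ^ (y p) % G ≠ g ^ c).image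
        fun p => (c + 1) * y p + c).card ≤ c := by
      apply hcardS
      · intro k hk
        obtain ⟨p, -, rfl⟩ := Finset.mem_image.1 hk
        have h2 : y p ≤ n := by
          have h3 : g ^ c * G ^ (y p) ≤ n := by
            rw [hn]
            exact Finset.single_le_sum (f := fun p => g ^ c * G ^ (y p))
              (fun _ _ => Nat.zero_le _) (mem_univ p)
          have h4 : y p < G ^ (y p) := Nat.lt_pow_self (by omega)
          have h5 : G ^ (y p) ≤ g ^ c * G ^ (y p) := Nat.le_mul_of_pos_left _ (hgp c)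
          omega
        have h6 : (c + 1) * y p ≤ (c + 1) * n := Nat.mul_le_mul_left _ h2
        rw [hR, mul_add, mul_one]
        omega
      · intro k hk
        obtain ⟨p, hp, rfl⟩ := Finset.mem_image.1 hk
        have hp' : ∀ j, a j / G ^ (y p) % G ≠ g ^ c := (mem_filter.1 hp).2
        have h2 : ∀ u, u / g ^ ((c + 1) * y p + c) = u / G ^ (y p) / g ^ c := fun u => by
          rw [pow_add, ← hGg, Nat.div_div_eq_div_mul]
        have h3 := hkap' ((c + 1) * y p + c)
        rw [h2] at h3
        simp only [h2] at h3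
        have h4 : n / G ^ (y p) / g ^ c = 1 + g * (n / G ^ (y p + 1)) := by
          rw [hstep, hcard1, one_mul, hGD]
          rw [show g ^ c + g * g ^ c * (n / (g * g ^ c) ^ (y p + 1)) =
            g ^ c * (1 + g * (n / (g * g ^ c) ^ (y p + 1))) by ring]
          rw [Nat.mul_div_cancel_left _ (hgp c)]
        have h5 : ∀ j, a j / G ^ (y p) / g ^ c = g * (a j / G ^ (y p + 1)) := by
          intro j
          have h6 : a j / G ^ (y p) % G < g ^ c := by
            refine lt_of_le_of_ne ?_ (hp' j)
            rw [← hxsum p]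
            exact Finset.single_le_sum (f := fun j => a j / G ^ (y p) % G)
              (fun _ _ => Nat.zero_le _) (mem_univ j)
          have h7 : a j / G ^ (y p) = a j / G ^ (y p) % G + g ^ c * (g * (a j / G ^ (y p + 1))) := by
            rw [← mul_assoc, mul_comm (g ^ c) g, ← hGD, pow_succ, ← Nat.div_div_eq_div_mul]
            exact (Nat.mod_add_div _ _).symm
          rw [h7, Nat.add_mul_div_left _ _ (hgp c), Nat.div_eq_of_lt h6, zero_add]
        rw [Finset.sum_congr rfl fun j _ => h5 j, ← Finset.mul_sum, ← hK, h4] at h3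
        omega
    rwa [Finset.card_image_of_injective _ hmono.injective] at h1
  · intro j
    have h1 := hexp (n + 1) (a j)
    have h2 : a j / G ^ (n + 1) = 0 :=
      Nat.div_eq_of_lt ((han j).trans_lt ((Nat.lt_succ_self n).trans (Nat.lt_pow_self (by omega))))
    rw [h2, mul_zero, add_zero] at h1
    rw [h1]
    have h3 : ∑ p, a j / G ^ (y p) % G * G ^ (y p) =
        ∑ i ∈ univ.image y, a j / G ^ i % G * G ^ i := by
      rw [Finset.sum_image hy.injective.injOn]
    rw [h3]
    have h4 : univ.image y ⊆ range (n + 1) := by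
      intro k hk
      obtain ⟨p, -, rfl⟩ := Finset.mem_image.1 hk
      rw [mem_range]
      have h3 : g ^ c * G ^ (y p) ≤ n := by
        rw [hn]
        exact Finset.single_le_sum (f := fun p => g ^ c * G ^ (y p))
          (fun _ _ => Nat.zero_le _) (mem_univ p)
      have h4 : y p < G ^ (y p) := Nat.lt_pow_self (by omega)
      have h5 : G ^ (y p) ≤ g ^ c * G ^ (y p) := Nat.le_mul_of_pos_left _ (hgp c)
      omega
    rw [← h1]
    conv_lhs => rw [h1]
    symm
    apply Finset.sum_subset h4
    intro i _ hi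
    have h5 := hdig i
    have h6 : (univ.filter fun p => y p = i) = ∅ := by
      rw [Finset.filter_eq_empty_iff]
      intro p _ hp
      exact hi (mem_image.2 ⟨p, mem_univ _, hp⟩)
    rw [h6, card_empty, zero_mul] at h5
    have h7 := (Finset.sum_eq_zero_iff.1 h5) j (mem_univ j)
    rw [h7, zero_mul]

end Pool.Agent.Q247.ET
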