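import Pool.Agent.Q247.ET.Ram
import Pool.Agent.Q247.ET.Basic

/-!
# Splittings of sparse numbers: the combinatorial core
-/

set_option autoImplicit false

open Finset

namespace Pool.Agent.Q247.ET

/-- a long run -/
theorem exists_run {m L c : ℕ} (hL : 1 ≤ L) (π : ℕ → ℕ) (D : ℕ) (hm : L * (c + 1) ≤ m)
    (hc : ((range m).filter (fun l => π l ≠ D)).card ≤ c) :
    ∃ l0, l0 + L ≤ m ∧ ∀ t < L, π (l0 + t) = D := by
  classical
  by_contra hcon
  push Not at hcon
  have h1 : ∀ q ∈ range (c + 1), ∃ t < L, π (q * L + t) ≠ D := by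
    intro q hq
    rw [mem_range] at hq
    apply hcon
    calc q * L + L = L * (q + 1) := by ring
      _ ≤ L * (c + 1) := Nat.mul_le_mul_left _ hq
      _ ≤ m := hm
  choose! t ht htD using h1
  have h2 : ((range (c + 1)).image fun q => q * L + t q) ⊆ (range m).filter (fun l => π l ≠ D) := by
    intro l hl
    obtain ⟨q, hq, rfl⟩ := Finset.mem_image.1 hl
    have hq' := mem_range.1 hq
    rw [mem_filter, mem_range]
    refine ⟨?_, htD q hq⟩
    calc q * L + t q < q * L + L := by have := ht q hq; omega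
      _ = L * (q + 1) := by ring
      _ ≤ L * (c + 1) := Nat.mul_le_mul_left _ hq'
      _ ≤ m := hm
  have h3 : ((range (c + 1)).image fun q => q * L + t q).card = c + 1 := by
    rw [Finset.card_image_of_injOn, card_range]
    intro q hq q' hq' he
    have e1 : (q * L + t q) / L = q := by
      rw [mul_comm, Nat.mul_add_div hL, Nat.div_eq_of_lt (ht q hq), add_zero]
    have e2 : (q' * L + t q') / L = q' := by
      rw [mul_comm, Nat.mul_add_div hL, Nat.div_eq_of_lt (ht q' hq'), add_zero]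
    rw [← e1, ← e2]
    exact congrArg (· / L) he
  have := Finset.card_le_card h2
  omega

/-- the elements of a set of natural numbers in increasing order -/
noncomputable def zz (L : ℕ) (Z : Finset ℕ) (hZ : Z.card = L) (t : ℕ) : ℕ :=
  if h : t < L then Z.orderEmbOfFin hZ ⟨t, h⟩ else 0

theorem sum_zz {L : ℕ} {Z : Finset ℕ} (hZ : Z.card = L) (f : ℕ → ℕ) :
    ∑ t ∈ range L, f (zz L Z hZ t) = ∑ z ∈ Z, f z := by
  rw [Finset.sum_range]
  have h1 : ∀ t : Fin L, f (zz L Z hZ t) = f (Z.orderEmbOfFin hZ t) := by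
    intro t
    unfold zz
    rw [dif_pos t.isLt]
  rw [Finset.sum_congr rfl fun t _ => h1 t]
  have h2 : Z = univ.map (Z.orderEmbOfFin hZ).toEmbedding := by
    rw [Finset.map_orderEmbOfFin_univ]
  conv_rhs => rw [h2]
  rw [Finset.sum_map]
  rfl

/-- the increasing tuple with middle part `Z` -/
noncomputable def yy (l0 L : ℕ) (Z : Finset ℕ) (hZ : Z.card = L) (l : ℕ) : ℕ :=
  if l < l0 then l else if l < l0 + L then l0 + zz L Z hZ (l - l0) else l + L

theorem yy_strictMono {l0 L m : ℕ} {Z : Finset ℕ} (hZ : Z.card = L) (hZ2 : Z ⊆ range (2 * L)) :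
    StrictMono (fun l : Fin m => yy l0 L Z hZ l) := by
  intro a b hab
  have hab' : (a : ℕ) < b := hab
  have hz : ∀ t, t < L → zz L Z hZ t < 2 * L := by
    intro t ht
    unfold zz
    rw [dif_pos ht]
    exact mem_range.1 (hZ2 (Finset.orderEmbOfFin_mem _ _ _))
  show yy l0 L Z hZ a < yy l0 L Z hZ b
  unfold yy
  by_cases h1 : (a : ℕ) < l0
  · rw [if_pos h1]
    by_cases h2 : (b : ℕ) < l0
    · rw [if_pos h2]; exact hab'
    · rw [if_neg h2]
      by_cases h3 : (b : ℕ) < l0 + L
      · rw [if_pos h3]; omega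
      · rw [if_neg h3]; omega
  · rw [if_neg h1]
    have h2 : ¬ (b : ℕ) < l0 := by omega
    rw [if_neg h2]
    by_cases h3 : (a : ℕ) < l0 + L
    · rw [if_pos h3]
      by_cases h4 : (b : ℕ) < l0 + L
      · rw [if_pos h4]
        have h5 : zz L Z hZ (a - l0) < zz L Z hZ (b - l0) := by
          unfold zz
          rw [dif_pos (by omega), dif_pos (by omega)]
          apply (Z.orderEmbOfFin hZ).strictMono
          show (a : ℕ) - l0 < b - l0
          omega
        omega
      · rw [if_neg h4]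
        have := hz (a - l0) (by omega)
        omega
    · rw [if_neg h3, if_neg (by omega)]
      omega

/-- the value of the pattern on the tuple -/
theorem sum_yy {l0 L m : ℕ} {Z : Finset ℕ} (hZ : Z.card = L) (hm : l0 + L ≤ m) (π f : ℕ → ℕ) (D : ℕ)
    (hπ : ∀ t < L, π (l0 + t) = D) :
    ∑ l : Fin m, π l * f (yy l0 L Z hZ l) = ∑ l ∈ range l0, π l * f l + D * ∑ z ∈ Z, f (l0 + z) +
      ∑ l ∈ Ico (l0 + L) m, π l * f (l + L) := by
  rw [← Finset.sum_range (fun l => π l * f (yy l0 L Z hZ l)), Finset.range_eq_Ico,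
    ← Finset.sum_Ico_consecutive _ (Nat.zero_le (l0 + L)) hm,
    ← Finset.sum_Ico_consecutive _ (Nat.zero_le l0) (Nat.le_add_right l0 L)]
  congr 1
  · congr 1
    · rw [← Finset.range_eq_Ico]
      refine Finset.sum_congr rfl fun l hl => ?_
      rw [mem_range] at hl
      unfold yy
      rw [if_pos hl]
    · rw [Finset.sum_Ico_eq_sum_range, Nat.add_sub_cancel_left, Finset.mul_sum,
        ← sum_zz hZ (fun z => D * f (l0 + z))]
      refine Finset.sum_congr rfl fun t ht => ?_
      rw [mem_range] at ht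
      rw [hπ t ht]
      congr 2
      unfold yy
      rw [if_neg (by omega), if_pos (by omega), Nat.add_sub_cancel_left]
  · refine Finset.sum_congr rfl fun l hl => ?_
    rw [mem_Ico] at hl
    unfold yy
    rw [if_neg (by omega), if_neg (by omega)]

/-- the counting step -/
theorem count {A : Set ℕ} {h G D L l0 m i0 : ℕ} (hh : 2 ≤ h) (hG : 2 ≤ G) (hD : 1 ≤ D) (hL : 1 ≤ L)
    (hm : l0 + L ≤ m) (π ρ : ℕ → ℕ) (hρ : StrictMono ρ) (hi : ∀ i, i0 ≤ ρ i)
    (hπ : ∀ t < L, π (l0 + t) = D)
    (hA : ∀ y : Fin m → ℕ, StrictMono y → ∑ l : Fin m, π l * G ^ (ρ (y l)) ∈ A) :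
    ∃ n ≥ i0, ((2 * L - 1).choose L : ℕ∞) ≤ (reps A h n).encard := by
  classical
  set lo := ∑ l ∈ range l0, π l * G ^ (ρ l) with hlo
  set hi' := ∑ l ∈ Ico (l0 + L) m, π l * G ^ (ρ (l + L)) with hhi
  let u : Finset ℕ → ℕ := fun Z => lo + D * ∑ z ∈ Z, G ^ (ρ (l0 + z)) + hi'
  have hu : ∀ Z : Finset ℕ, Z.card = L → Z ⊆ range (2 * L) → u Z ∈ A := by
    intro Z hZ hZ2
    have h1 := hA _ (yy_strictMono (m := m) (l0 := l0) hZ hZ2)
    rw [sum_yy hZ hm π (fun i => G ^ (ρ i)) D hπ] at h1
    exact h1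
  have hinj : ∀ Z Z' : Finset ℕ, u Z = u Z' → Z = Z' := by
    intro Z Z' he
    have h1 : D * ∑ z ∈ Z, G ^ (ρ (l0 + z)) = D * ∑ z ∈ Z', G ^ (ρ (l0 + z)) := by
      simp only [u] at he
      omega
    have h2 := Nat.eq_of_mul_eq_mul_left hD h1
    have hρi : Function.Injective (fun z => ρ (l0 + z)) := fun a b hab => by
      have := hρ.injective hab
      omega
    have h3 : ∀ Z : Finset ℕ, ∑ z ∈ Z, G ^ (ρ (l0 + z)) =
        ∑ i ∈ Z.image (fun z => ρ (l0 + z)), G ^ i := by
      intro Z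
      rw [Finset.sum_image (fun a _ b _ hab => hρi hab)]
    rw [h3, h3] at h2
    exact Finset.image_injective hρi (Finset.geomSum_injective hG h2)
  have hcardc : ∀ Z ∈ powersetCard L (range (2 * L - 1)), (range (2 * L) \ Z).card = L ∧
      Z ⊆ range (2 * L) := by
    intro Z hZ
    rw [mem_powersetCard] at hZ
    have h1 : Z ⊆ range (2 * L) := hZ.1.trans (range_subset_range.2 (by omega))
    refine ⟨?_, h1⟩
    rw [Finset.card_sdiff_of_subset h1, card_range, hZ.2]
    omega
  have ha0 : u (range L) ∈ A := hu _ (card_range L) (range_subset_range.2 (by omega))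
  let S : Finset ℕ → Multiset ℕ := fun Z =>
    ({u Z, u (range (2 * L) \ Z)} : Multiset ℕ) + Multiset.replicate (h - 2) (u (range L))
  let N := lo + hi' + (lo + hi') + D * ∑ z ∈ range (2 * L), G ^ (ρ (l0 + z)) +
    (h - 2) * u (range L)
  refine ⟨N, ?_, ?_⟩
  · have h1 : i0 ≤ G ^ (ρ (l0 + 0)) := (hi _).trans (Nat.lt_pow_self (by omega)).le
    have h2 : G ^ (ρ (l0 + 0)) ≤ ∑ z ∈ range (2 * L), G ^ (ρ (l0 + z)) :=
      Finset.single_le_sum (f := fun z => G ^ (ρ (l0 + z))) (fun _ _ => Nat.zero_le _)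
        (mem_range.2 (by omega))
    have h3 : ∑ z ∈ range (2 * L), G ^ (ρ (l0 + z)) ≤ D * ∑ z ∈ range (2 * L), G ^ (ρ (l0 + z)) :=
      Nat.le_mul_of_pos_left _ hD
    show i0 ≤ N
    simp only [N]
    omega
  · have hS : ∀ Z ∈ powersetCard L (range (2 * L - 1)), S Z ∈ reps A h N := by
      intro Z hZ
      obtain ⟨hc, hsub⟩ := hcardc Z hZ
      refine ⟨?_, ?_, ?_⟩
      · simp only [S, Multiset.card_add, Multiset.card_replicate, Multiset.insert_eq_cons,
          Multiset.card_cons, Multiset.card_singleton]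
        omega
      · intro a ha
        simp only [S, Multiset.mem_add, Multiset.insert_eq_cons, Multiset.mem_cons,
          Multiset.mem_singleton] at ha
        rcases ha with (rfl | rfl) | ha
        · exact hu Z (mem_powersetCard.1 hZ).2 hsub
        · exact hu _ hc sdiff_subset
        · rw [Multiset.eq_of_mem_replicate ha]
          exact ha0
      · simp only [S, Multiset.sum_add, Multiset.sum_replicate, Multiset.insert_eq_cons,
          Multiset.sum_cons, Multiset.sum_singleton, smul_eq_mul]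
        have h1 : ∑ z ∈ range (2 * L), G ^ (ρ (l0 + z)) =
            ∑ z ∈ range (2 * L) \ Z, G ^ (ρ (l0 + z)) + ∑ z ∈ Z, G ^ (ρ (l0 + z)) :=
          (Finset.sum_sdiff hsub).symm
        simp only [u, N, h1]
        ring
    have hSinj : Set.InjOn S (powersetCard L (range (2 * L - 1)) : Set (Finset ℕ)) := by
      intro Z hZ Z' hZ' he
      have h1 := add_right_cancel he
      have h2 : u Z ∈ ({u Z', u (range (2 * L) \ Z')} : Multiset ℕ) := by
        rw [← h1]
        simp
      simp only [Multiset.insert_eq_cons, Multiset.mem_cons, Multiset.mem_singleton] at h2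
      rcases h2 with h2 | h2
      · exact hinj _ _ h2
      · exfalso
        have h3 := hinj _ _ h2
        have h4 : 2 * L - 1 ∈ Z := by
          rw [h3, mem_sdiff]
          refine ⟨mem_range.2 (by omega), fun hc => ?_⟩
          have := mem_range.1 ((mem_powersetCard.1 hZ').1 hc)
          omega
        have := mem_range.1 ((mem_powersetCard.1 hZ).1 h4)
        omega
    have h1 : (((powersetCard L (range (2 * L - 1))).image S : Finset (Multiset ℕ)) :
        Set (Multiset ℕ)).encard ≤ (reps A h N).encard := by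
      apply Set.encard_le_encard
      intro b hb
      rw [Finset.coe_image] at hb
      obtain ⟨Z, hZ, rfl⟩ := hb
      exact hS Z hZ
    rw [Set.encard_coe_eq_coe_finsetCard, Finset.card_image_of_injOn hSinj, card_powersetCard,
      card_range] at h1
    exact h1

/-- the combinatorial core -/
theorem core {A : Set ℕ} {h G D s c L : ℕ} (hh : 2 ≤ h) (hG : 2 ≤ G) (hD : 1 ≤ D) (hL : 1 ≤ L)
    (hs : h * L * (c + 1) + c ≤ s) (i0 : ℕ)
    (hyp : ∀ y : Fin s → ℕ, StrictMono y → (∀ p, i0 ≤ y p) → ∃ x : Fin h → Fin s → ℕ,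
      (∀ p, ∑ j, x j p = D) ∧ (univ.filter fun p => ∀ j, x j p ≠ D).card ≤ c ∧
      ∀ j, ∑ p, x j p * G ^ (y p) ∈ A) :
    ∃ n ≥ i0, ((2 * L - 1).choose L : ℕ∞) ≤ (reps A h n).encard := by
  classical
  -- first application of Ramsey's theorem
  have hyp' : ∀ y : Fin s → ℕ, StrictMono y → ∃ W : Fin h → Fin s → Fin (D + 1),
      (∀ p, ∑ j, (W j p : ℕ) = D) ∧ (univ.filter fun p => ∀ j, (W j p : ℕ) ≠ D).card ≤ c ∧
      ∀ j, ∑ p, (W j p : ℕ) * G ^ (i0 + y p) ∈ A := by
    intro y hy
    obtain ⟨x, h1, h2, h3⟩ := hyp (fun p => i0 + y p) (fun a b hab => Nat.add_lt_add_left (hy hab) _)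
      (fun p => Nat.le_add_right _ _)
    have h4 : ∀ j p, x j p < D + 1 := by
      intro j p
      have := Finset.single_le_sum (f := fun j => x j p) (fun _ _ => Nat.zero_le _) (mem_univ j)
      rw [h1 p] at this
      omega
    exact ⟨fun j p => ⟨x j p, h4 j p⟩, h1, h2, h3⟩
  choose! F hF using hyp'
  obtain ⟨φ, hφ, W, hW⟩ := Ram.ramsey_tuple s F
  have hsid : StrictMono (fun p : Fin s => (p : ℕ)) := fun a b hab => hab
  obtain ⟨hW1, hW2, -⟩ : (∀ p, ∑ j, (W j p : ℕ) = D) ∧
      (univ.filter fun p => ∀ j, (W j p : ℕ) ≠ D).card ≤ c ∧ True := by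
    have h1 := hF (fun p => φ p) (hφ.comp hsid)
    rw [hW _ hsid] at h1
    exact ⟨h1.1, h1.2.1, trivial⟩
  have hW3 : ∀ y : Fin s → ℕ, StrictMono y → ∀ j, ∑ p, (W j p : ℕ) * G ^ (i0 + φ (y p)) ∈ A := by
    intro y hy
    have h1 := hF (fun p => φ (y p)) (hφ.comp hy)
    rw [hW _ hy] at h1
    exact h1.2.2
  -- the summand with many pure positions
  have hj : ∃ j, L * (c + 1) ≤ (univ.filter fun p => (W j p : ℕ) = D).card := by
    by_contra hcon
    push Not at hcon
    have h1 : (univ : Finset (Fin s)) ⊆ (univ.filter fun p => ∀ j, (W j p : ℕ) ≠ D) ∪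
        univ.biUnion fun j => univ.filter fun p => (W j p : ℕ) = D := by
      intro p _
      rw [mem_union, mem_filter, mem_biUnion]
      by_cases hp : ∀ j, (W j p : ℕ) ≠ D
      · exact Or.inl ⟨mem_univ _, hp⟩
      · push Not at hp
        obtain ⟨j, hj⟩ := hp
        exact Or.inr ⟨j, mem_univ _, by simpa using hj⟩
    have h2 := Finset.card_le_card h1
    rw [card_univ, Fintype.card_fin] at h2
    have h3 := h2.trans (Finset.card_union_le _ _)
    have h4 : (univ.biUnion fun j => univ.filter fun p => (W j p : ℕ) = D).card ≤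
        ∑ j : Fin h, (univ.filter fun p => (W j p : ℕ) = D).card := Finset.card_biUnion_le
    have h5 : ∑ j : Fin h, (univ.filter fun p => (W j p : ℕ) = D).card < ∑ j : Fin h, L * (c + 1) :=
      Finset.sum_lt_sum_of_nonempty ⟨⟨0, by omega⟩, mem_univ _⟩ fun j _ => hcon j
    rw [sum_const, card_univ, Fintype.card_fin, smul_eq_mul, ← mul_assoc] at h5
    omega
  obtain ⟨j, hj⟩ := hj
  set T : Finset (Fin s) := univ.filter fun p => (W j p : ℕ) ≠ 0 with hT
  set m := T.card with hmdef
  let e : Fin m ↪o Fin s := T.orderEmbOfFin rfl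
  let π : ℕ → ℕ := fun l => if hl : l < m then (W j (e ⟨l, hl⟩) : ℕ) else 0
  have hm : L * (c + 1) ≤ m := by
    refine hj.trans (Finset.card_le_card ?_)
    intro p hp
    rw [mem_filter] at hp ⊢
    refine ⟨mem_univ _, ?_⟩
    rw [hp.2]
    omega
  have hc' : ((range m).filter (fun l => π l ≠ D)).card ≤ c := by
    refine le_trans ?_ hW2
    have h1 : ((range m).filter (fun l => π l ≠ D)) ⊆
        Finset.image (fun l : Fin m => (l : ℕ))
          (Finset.filter (fun l : Fin m => (W j (e l) : ℕ) ≠ D) Finset.univ) := by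
      intro l hl
      rw [mem_filter, mem_range] at hl
      rw [mem_image]
      refine ⟨⟨l, hl.1⟩, ?_, rfl⟩
      rw [mem_filter]
      refine ⟨mem_univ _, ?_⟩
      have h2 := hl.2
      simp only [π, dif_pos hl.1] at h2
      exact h2
    refine (Finset.card_le_card h1).trans (Finset.card_image_le.trans ?_)
    have h2 : (Finset.image e (Finset.filter (fun l : Fin m => (W j (e l) : ℕ) ≠ D)
        Finset.univ)).card =
        (Finset.filter (fun l : Fin m => (W j (e l) : ℕ) ≠ D) Finset.univ).card :=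
      Finset.card_image_of_injective _ e.injective
    rw [← h2]
    apply Finset.card_le_card
    intro p hp
    obtain ⟨l, hl, rfl⟩ := Finset.mem_image.1 hp
    rw [mem_filter] at hl ⊢
    refine ⟨mem_univ _, fun j' => ?_⟩
    have h3 : (W j (e l) : ℕ) ≠ 0 := by
      have : e l ∈ T := Finset.orderEmbOfFin_mem _ _ _
      rw [hT, mem_filter] at this
      exact this.2
    intro hj'
    by_cases hjj : j' = j
    · rw [hjj] at hj'
      exact hl.2 hj'
    · have h4 := hW1 (e l)
      have h5 : ∑ i ∈ {j, j'}, (W i (e l) : ℕ) ≤ ∑ i, (W i (e l) : ℕ) :=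
        Finset.sum_le_sum_of_subset (subset_univ _)
      rw [Finset.sum_pair (Ne.symm hjj), h4] at h5
      omega
  obtain ⟨l0, hl0, hrun⟩ := exists_run hL π D hm hc'
  -- sums over the support
  have hsupp : ∀ f : Fin s → ℕ, ∑ p, (W j p : ℕ) * f p = ∑ l : Fin m, (W j (e l) : ℕ) * f (e l) := by
    intro f
    have h1 : T = univ.map e.toEmbedding := by
      rw [Finset.map_orderEmbOfFin_univ]
    have h2 : ∑ p, (W j p : ℕ) * f p = ∑ p ∈ T, (W j p : ℕ) * f p := by
      rw [hT, Finset.sum_filter]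
      refine Finset.sum_congr rfl fun p _ => ?_
      by_cases hp : (W j p : ℕ) = 0
      · simp [hp]
      · rw [if_pos hp]
    rw [h2]
    conv_lhs => rw [h1]
    rw [Finset.sum_map]
    rfl
  -- second application of Ramsey's theorem
  obtain ⟨φ2, hφ2, b, hb⟩ := Ram.ramsey_tuple (κ := Prop) m
    (fun y => ∑ l : Fin m, (W j (e l) : ℕ) * G ^ (i0 + φ (y l)) ∈ A)
  have hbt : b := by
    have h1 := hb (fun l => (e l : ℕ)) (fun a a' haa => e.strictMono haa)
    rw [← h1]
    have h2 := hW3 (fun p => φ2 p) (hφ2.comp hsid) j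
    rw [hsupp (fun p => G ^ (i0 + φ (φ2 p)))] at h2
    exact h2
  refine count (m := m) hh hG hD hL hl0 π (fun i => i0 + φ (φ2 i))
    (fun a a' haa => Nat.add_lt_add_left (hφ (hφ2 haa)) _) (fun i => Nat.le_add_right _ _) hrun ?_
  intro y hy
  have h1 := hb y hy
  have h2 : ∑ l : Fin m, (W j (e l) : ℕ) * G ^ (i0 + φ (φ2 (y l))) ∈ A := by
    rw [h1]; exact hbt
  have h3 : ∀ l : Fin m, π l = (W j (e l) : ℕ) := by
    intro l
    simp only [π, dif_pos l.isLt]
  simp only [h3]
  exact h2

end Pool.Agent.Q247.ET
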