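import Pool.Agent.Q247.ET.Ram
import Pool.Agent.Q247.ET.Basic

/-!
# Sums of few terms of a sequence and representation functions: the exchange argument
-/

set_option autoImplicit false

open Finset

namespace Pool.Agent.Q247.ET

/-- an injective sequence of integers is not bounded -/
theorem exists_far {w : ℕ → ℤ} (hw : Function.Injective w) (z : ℕ) (B : ℤ) :
    ∃ z', z < z' ∧ B < |w z' - w z| := by
  by_contra hcon
  push Not at hcon
  have h1 : Set.MapsTo w (Set.Ioi z) (Set.Icc (w z - B) (w z + B)) := by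
    intro z' hz'
    have h2 := hcon z' hz'
    rw [abs_le] at h2
    constructor <;> linarith [h2.1, h2.2]
  exact (Set.infinite_of_injOn_mapsTo hw.injOn h1 (Set.Ioi_infinite z)) (Set.finite_Icc _ _)

/-- pairs of places with rapidly increasing differences -/
theorem exists_places {w : ℕ → ℤ} (hw : Function.Injective w) (C B : ℤ) :
    ∃ z z' : ℕ → ℕ, (∀ p, z p < z' p) ∧ (∀ p, z' p < z (p + 1)) ∧
      ∀ p, C * ∑ q ∈ range p, |w (z' q) - w (z q)| + B < |w (z' p) - w (z p)| := by
  choose far hfar1 hfar2 using fun z B => exists_far hw z B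
  let st : ℕ → ℕ × ℤ := fun n => Nat.rec (0, 0)
    (fun _ x => (far x.1 (C * x.2 + B) + 1, x.2 + |w (far x.1 (C * x.2 + B)) - w x.1|)) n
  have hst : ∀ p, st (p + 1) = (far (st p).1 (C * (st p).2 + B) + 1,
      (st p).2 + |w (far (st p).1 (C * (st p).2 + B)) - w (st p).1|) := fun p => rfl
  let z : ℕ → ℕ := fun p => (st p).1
  let z' : ℕ → ℕ := fun p => far (st p).1 (C * (st p).2 + B)
  have hS : ∀ p, (st p).2 = ∑ q ∈ range p, |w (z' q) - w (z q)| := by
    intro p
    induction p with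
    | zero => rfl
    | succ p ih =>
      rw [Finset.sum_range_succ, ← ih, hst]
  refine ⟨z, z', fun p => hfar1 _ _, fun p => ?_, fun p => ?_⟩
  · show z' p < (st (p + 1)).1
    rw [hst]
    exact Nat.lt_succ_self _
  · rw [← hS]
    exact hfar2 _ _

/-- a sum with rapidly increasing terms is not small -/
theorem sum_far {C B : ℤ} {d : ℕ → ℤ} (hd : ∀ p, C * ∑ q ∈ range p, |d q| + B < |d p|)
    {s : ℕ} (c : ℕ → ℤ) (hc : ∀ p < s, |c p| ≤ C) (hne : ∃ p < s, c p ≠ 0) :
    B < |∑ p ∈ range s, c p * d p| := by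
  classical
  obtain ⟨p0, hp0, hp0c⟩ := hne
  set T := (range s).filter (fun p => c p ≠ 0) with hT
  have hTne : T.Nonempty := ⟨p0, by rw [hT, mem_filter, mem_range]; exact ⟨hp0, hp0c⟩⟩
  set m := T.max' hTne with hm
  have hmT : m ∈ T := Finset.max'_mem _ _
  rw [hT, mem_filter, mem_range] at hmT
  have h1 : ∑ p ∈ range s, c p * d p = ∑ p ∈ range (m + 1), c p * d p := by
    symm
    apply Finset.sum_subset (range_subset_range.2 (by omega))
    intro p hp hp'
    rw [mem_range] at hp hp'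
    by_cases hcp : c p = 0
    · rw [hcp, zero_mul]
    · exfalso
      have h2 : p ≤ m := Finset.le_max' T p (by rw [hT, mem_filter, mem_range]; exact ⟨hp, hcp⟩)
      omega
  rw [h1, Finset.sum_range_succ]
  have h2 : |∑ p ∈ range m, c p * d p| ≤ C * ∑ p ∈ range m, |d p| := by
    rw [Finset.mul_sum]
    refine (Finset.abs_sum_le_sum_abs _ _).trans (Finset.sum_le_sum fun p hp => ?_)
    rw [abs_mul]
    exact mul_le_mul_of_nonneg_right (hc p (by rw [mem_range] at hp; omega)) (abs_nonneg _)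
  have h3 : |d m| ≤ |c m * d m| := by
    rw [abs_mul]
    have h4 : 1 ≤ |c m| := Int.one_le_abs hmT.2
    nlinarith [abs_nonneg (d m)]
  have h4 := hd m
  have h5 : |c m * d m| ≤ |∑ p ∈ range m, c p * d p + c m * d m| + |∑ p ∈ range m, c p * d p| := by
    have := abs_sub (∑ p ∈ range m, c p * d p + c m * d m) (∑ p ∈ range m, c p * d p)
    rw [add_sub_cancel_left] at this
    exact this
  linarith

/-- the form for `Fin s` -/
theorem sum_far_fin {C B : ℤ} {d : ℕ → ℤ} (hd : ∀ p, C * ∑ q ∈ range p, |d q| + B < |d p|)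
    {s : ℕ} (c : Fin s → ℤ) (hc : ∀ p, |c p| ≤ C) (hne : ∃ p, c p ≠ 0) :
    B < |∑ p, c p * d p| := by
  obtain ⟨p0, hp0⟩ := hne
  have h1 := sum_far hd (s := s) (fun p => if h : p < s then c ⟨p, h⟩ else 0)
    (fun p hp => by rw [dif_pos hp]; exact hc _) ⟨p0, p0.isLt, by rw [dif_pos p0.isLt]; exact hp0⟩
  rw [Finset.sum_range] at h1
  have h2 : ∀ p : Fin s, (if h : (p : ℕ) < s then c ⟨p, h⟩ else 0) * d p = c p * d p := fun p => by
    rw [dif_pos p.isLt]
  rwa [Finset.sum_congr rfl fun p _ => h2 p] at h1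

/-- **the exchange argument.** If all large sums of `s` different terms of an injective sequence `w`
are sums of `h` elements `a` of `A` such that `M a` is a linear combination of these `s` terms and of
`1` with coefficients of absolute value at most `C`, then there are arbitrarily large numbers with at
least `2 ^ (⌈s / h⌉ - 1)` representations. -/
theorem core2 {A : Set ℕ} {h s : ℕ} (hh : 2 ≤ h) (hs : 1 ≤ s) {M : ℕ} (hM : 1 ≤ M) (C : ℕ)
    {w : ℕ → ℤ} (hw : Function.Injective w) (i0 : ℕ)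
    (hyp : ∀ y : Fin s → ℕ, StrictMono y → (∀ p, i0 ≤ y p) →
      ∃ (a : Fin h → ℕ) (v : Fin h → ℤ) (u : Fin h → Fin s → ℤ), (∀ j, a j ∈ A) ∧
        ∑ j, (a j : ℤ) = ∑ p, w (y p) ∧ (∀ j, |v j| ≤ C) ∧ (∀ j p, |u j p| ≤ C) ∧
        ∀ j, (M : ℤ) * a j = v j + ∑ p, u j p * w (y p)) (N : ℕ) :
    ∃ m ≥ N, ((2 ^ ((s + h - 1) / h - 1) : ℕ) : ℕ∞) ≤ (reps A h m).encard := by
  classical
  obtain ⟨dec, hdecdef⟩ : ∃ dec : Fin (2 * C + 1) → ℤ, ∀ k, dec k = (k : ℤ) - C :=
    ⟨fun k => (k : ℤ) - C, fun _ => rfl⟩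
  have hdec : ∀ x : ℤ, |x| ≤ C → ∃ k, dec k = x := by
    intro x hx
    rw [abs_le] at hx
    refine ⟨⟨(x + C).toNat, by omega⟩, ?_⟩
    rw [hdecdef]
    show (((x + C).toNat : ℕ) : ℤ) - C = x
    omega
  have hdecC : ∀ k, |dec k| ≤ C := by
    intro k
    have hk := k.isLt
    rw [abs_le, hdecdef]
    constructor <;> omega
  -- colours
  have hyp' : ∀ y : Fin s → ℕ, StrictMono y →
      ∃ W : (Fin h → Fin (2 * C + 1)) × (Fin h → Fin s → Fin (2 * C + 1)),
      ∃ a : Fin h → ℕ, (∀ j, a j ∈ A) ∧ ∑ j, (a j : ℤ) = ∑ p, w (i0 + y p) ∧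
        ∀ j, (M : ℤ) * a j = dec (W.1 j) + ∑ p, dec (W.2 j p) * w (i0 + y p) := by
    intro y hy
    obtain ⟨a, v, u, h1, h2, h3, h4, h5⟩ := hyp (fun p => i0 + y p)
      (fun a b hab => Nat.add_lt_add_left (hy hab) _) (fun p => Nat.le_add_right _ _)
    choose V hV using fun j => hdec (v j) (h3 j)
    choose U hU using fun j p => hdec (u j p) (h4 j p)
    exact ⟨(V, U), a, h1, h2, fun j => by simp only [hV, hU]; exact h5 j⟩
  choose! F hF using hyp'
  obtain ⟨φ, hφ, W, hW⟩ := Ram.ramsey_tuple s F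
  obtain ⟨w', hw'⟩ : ∃ w' : ℕ → ℤ, ∀ i, w' i = w (i0 + φ i) := ⟨_, fun _ => rfl⟩
  have hw'i : Function.Injective w' := fun a b hab => by
    rw [hw', hw'] at hab
    have := hw hab
    exact hφ.injective (by omega)
  obtain ⟨V, hV⟩ : ∃ V : Fin h → ℤ, ∀ j, V j = dec (W.1 j) := ⟨_, fun _ => rfl⟩
  obtain ⟨U, hU⟩ : ∃ U : Fin h → Fin s → ℤ, ∀ j p, U j p = dec (W.2 j p) := ⟨_, fun _ _ => rfl⟩
  have hUC : ∀ j p, |U j p| ≤ C := fun j p => by rw [hU]; exact hdecC _
  have key : ∀ y : Fin s → ℕ, StrictMono y → ∃ a : Fin h → ℕ, (∀ j, a j ∈ A) ∧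
      ∑ j, (a j : ℤ) = ∑ p, w' (y p) ∧ ∀ j, (M : ℤ) * a j = V j + ∑ p, U j p * w' (y p) := by
    intro y hy
    obtain ⟨a, h1, h2, h3⟩ := hF (fun p => φ (y p)) (hφ.comp hy)
    rw [hW _ hy] at h3
    refine ⟨a, h1, ?_, fun j => ?_⟩
    · simp only [hw']; exact h2
    · simp only [hw', hV, hU]; exact h3 j
  -- the coefficients of each term add up to `M`
  have hUsum : ∀ p, ∑ j, U j p = M := by
    intro p
    obtain ⟨y, hydef⟩ : ∃ y : Fin s → ℕ, ∀ q, y q = 2 * (q : ℕ) := ⟨_, fun _ => rfl⟩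
    obtain ⟨y', hy'def⟩ : ∃ y' : Fin s → ℕ, ∀ q, y' q = if q = p then 2 * (q : ℕ) + 1 else 2 * q :=
      ⟨_, fun _ => rfl⟩
    have hy : StrictMono y := fun a b hab => by
      have hab' : (a : ℕ) < b := hab
      rw [hydef, hydef]; omega
    have hy' : StrictMono y' := fun a b hab => by
      have hab' : (a : ℕ) < b := hab
      rw [hy'def, hy'def]
      split_ifs <;> omega
    have e1 : ∀ y : Fin s → ℕ, StrictMono y →
        (M : ℤ) * ∑ q, w' (y q) = ∑ j, V j + ∑ q, (∑ j, U j q) * w' (y q) := by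
      intro y hy
      obtain ⟨a, -, h1, h2⟩ := key y hy
      rw [← h1, Finset.mul_sum, Finset.sum_congr rfl fun j _ => h2 j, Finset.sum_add_distrib,
        Finset.sum_comm]
      congr 1
      exact Finset.sum_congr rfl fun q _ => (Finset.sum_mul _ _ _).symm
    have e2 : ∑ q, ((M : ℤ) - ∑ j, U j q) * (w' (y' q) - w' (y q)) = 0 := by
      have h1 := e1 y hy
      have h2 := e1 y' hy'
      rw [Finset.mul_sum] at h1 h2
      have h3 : ∑ q, ((M : ℤ) - ∑ j, U j q) * (w' (y' q) - w' (y q)) =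
          (∑ q, (M : ℤ) * w' (y' q) - ∑ q, (∑ j, U j q) * w' (y' q)) -
          (∑ q, (M : ℤ) * w' (y q) - ∑ q, (∑ j, U j q) * w' (y q)) := by
        rw [← Finset.sum_sub_distrib, ← Finset.sum_sub_distrib, ← Finset.sum_sub_distrib]
        exact Finset.sum_congr rfl fun q _ => by ring
      rw [h3, h1, h2]
      ring
    rw [Finset.sum_eq_single p] at e2
    · have h1 : w' (y' p) - w' (y p) ≠ 0 := by
        rw [hy'def, hydef, if_pos rfl, sub_ne_zero]
        intro hc
        have := hw'i hc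
        omega
      have h2 := (mul_eq_zero.1 e2).resolve_right h1
      linarith
    · intro q _ hq
      rw [hy'def, hydef, if_neg hq, sub_self, mul_zero]
    · intro hp
      exact absurd (mem_univ p) hp
  -- the summand with many terms
  have hj : ∃ j, s ≤ h * (univ.filter fun p => U j p ≠ 0).card := by
    by_contra hcon
    push Not at hcon
    have h1 : (univ : Finset (Fin s)) ⊆ univ.biUnion fun j => univ.filter fun p => U j p ≠ 0 := by
      intro p _
      rw [mem_biUnion]
      by_contra hc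
      push Not at hc
      have h2 : ∀ j, U j p = 0 := fun j => by
        have h3 := hc j (mem_univ _)
        by_contra h4
        exact h3 (mem_filter.2 ⟨mem_univ _, h4⟩)
      have h3 := hUsum p
      rw [Finset.sum_eq_zero fun j _ => h2 j] at h3
      omega
    have h2 := Finset.card_le_card h1
    rw [card_univ, Fintype.card_fin] at h2
    have h3 := h2.trans Finset.card_biUnion_le
    have h4 : ∑ j : Fin h, h * (univ.filter fun p => U j p ≠ 0).card < ∑ _j : Fin h, s :=
      Finset.sum_lt_sum_of_nonempty ⟨⟨0, by omega⟩, mem_univ _⟩ fun j _ => hcon j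
    rw [sum_const, card_univ, Fintype.card_fin, smul_eq_mul, ← Finset.mul_sum] at h4
    have h5 := Nat.lt_of_mul_lt_mul_left h4
    omega
  obtain ⟨j, hj⟩ := hj
  obtain ⟨T, hT⟩ : ∃ T : Finset (Fin s), T = univ.filter fun p => U j p ≠ 0 := ⟨_, rfl⟩
  have hTmem : ∀ p, p ∈ T ↔ U j p ≠ 0 := fun p => by rw [hT]; simp
  rw [← hT] at hj
  have hTpos : 0 < T.card := by
    rcases Nat.eq_zero_or_pos T.card with h0 | h0
    · rw [h0, mul_zero] at hj; omega
    · exact h0
  obtain ⟨p0, hp0⟩ := Finset.card_pos.1 hTpos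
  -- the places
  obtain ⟨z, z', hz1, hz2, hz3⟩ := exists_places hw'i (C : ℤ) ((M : ℤ) * N)
  have hzmono : StrictMono z := strictMono_nat_of_lt_succ fun p => (hz1 p).trans (hz2 p)
  obtain ⟨Y, hY⟩ : ∃ Y : Finset (Fin s) → Fin s → ℕ, ∀ Z p, Y Z p = if p ∈ Z then z' p else z p :=
    ⟨_, fun _ _ => rfl⟩
  have hYmono : ∀ Z, StrictMono (Y Z) := by
    intro Z p q hpq
    have hpq' : (p : ℕ) + 1 ≤ q := hpq
    have h1 : Y Z p ≤ z' p := by
      rw [hY]; split_ifs
      · exact le_rfl
      · exact (hz1 p).le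
    have h2 : z q ≤ Y Z q := by
      rw [hY]; split_ifs
      · exact (hz1 q).le
      · exact le_rfl
    have h3 : z (p + 1) ≤ z q := hzmono.monotone hpq'
    have h4 := hz2 p
    omega
  have hb : ∀ Z : Finset (Fin s), ∃ b : ℕ, b ∈ A ∧
      (M : ℤ) * b = V j + ∑ p, U j p * w' (Y Z p) := by
    intro Z
    obtain ⟨a, h1, -, h2⟩ := key _ (hYmono Z)
    exact ⟨a j, h1 j, h2 j⟩
  choose b hbA hbM using hb
  have hMpos : (0 : ℤ) < M := by exact_mod_cast hM
  -- complementary choices
  have hcompl : ∀ Z, b Z + b Zᶜ = b ∅ + b univ := by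
    intro Z
    have h1 : ∀ Z, (M : ℤ) * ((b Z : ℤ) + b Zᶜ) = 2 * V j + ∑ p, U j p * (w' (z p) + w' (z' p)) := by
      intro Z
      have h2 : ∑ p, U j p * (w' (z p) + w' (z' p)) =
          ∑ p, U j p * w' (Y Z p) + ∑ p, U j p * w' (Y Zᶜ p) := by
        rw [← Finset.sum_add_distrib]
        refine Finset.sum_congr rfl fun p _ => ?_
        rw [hY, hY]
        by_cases hp : p ∈ Z
        · rw [if_pos hp, if_neg (by simpa using hp)]; ring
        · rw [if_neg hp, if_pos (by simpa using hp)]; ring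
      rw [mul_add, hbM, hbM, h2]
      ring
    have h2 := h1 Z
    have h3 := h1 ∅
    rw [Finset.compl_empty] at h3
    have h4 : ((b Z : ℤ) + b Zᶜ) = (b ∅ : ℤ) + b univ := by
      apply mul_left_cancel₀ hMpos.ne'
      rw [h2, h3]
    exact_mod_cast h4
  have hdist : ∀ Z Z' : Finset (Fin s), (∃ p ∈ T, ¬ (p ∈ Z ↔ p ∈ Z')) →
      (M : ℤ) * N < |(M : ℤ) * b Z - M * b Z'| := by
    intro Z Z' ⟨p, hpT, hpZ⟩
    obtain ⟨c, hc⟩ : ∃ c : Fin s → ℤ, ∀ p, c p = U j p * ((if p ∈ Z then 1 else 0) -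
      (if p ∈ Z' then 1 else 0)) := ⟨_, fun _ => rfl⟩
    have h1 : (M : ℤ) * b Z - M * b Z' = ∑ p, c p * (w' (z' p) - w' (z p)) := by
      rw [hbM, hbM, add_sub_add_left_eq_sub, ← Finset.sum_sub_distrib]
      refine Finset.sum_congr rfl fun p _ => ?_
      rw [hc, hY, hY]
      split_ifs <;> ring
    rw [h1]
    refine sum_far_fin (C := C) (d := fun p => w' (z' p) - w' (z p)) hz3 c (fun p => ?_) ⟨p, ?_⟩
    · rw [hc, abs_mul]
      have h2 := hUC j p
      split_ifs <;> simp <;> omega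
    · rw [hc]
      have h2 := (hTmem p).1 hpT
      by_cases hp1 : p ∈ Z
      · by_cases hp2 : p ∈ Z'
        · exact absurd ⟨fun _ => hp2, fun _ => hp1⟩ hpZ
        · rw [if_pos hp1, if_neg hp2]; simpa using h2
      · by_cases hp2 : p ∈ Z'
        · rw [if_neg hp1, if_pos hp2]; simpa using h2
        · exact absurd ⟨fun h => absurd h hp1, fun h => absurd h hp2⟩ hpZ
  have hMN : (0 : ℤ) ≤ M * N := by positivity
  have hbne : ∀ Z Z' : Finset (Fin s), (∃ p ∈ T, ¬ (p ∈ Z ↔ p ∈ Z')) → b Z ≠ b Z' := by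
    intro Z Z' hp he
    have h1 := hdist Z Z' hp
    rw [he, sub_self, abs_zero] at h1
    omega
  let S : Finset (Fin s) → Multiset ℕ := fun Z =>
    ({b Z, b Zᶜ} : Multiset ℕ) + Multiset.replicate (h - 2) (b ∅)
  refine ⟨b ∅ + b univ + (h - 2) * b ∅, ?_, ?_⟩
  · have h1 := hdist ∅ {p0} ⟨p0, hp0, by simp⟩
    have h2 := hcompl {p0}
    rw [← mul_sub, abs_mul, abs_of_pos hMpos] at h1
    have h3 : (N : ℤ) < |(b ∅ : ℤ) - b {p0}| := lt_of_mul_lt_mul_left h1 hMpos.le
    rcases abs_cases ((b ∅ : ℤ) - b {p0}) with ⟨h4, h5⟩ | ⟨h4, h5⟩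
    · rw [h4] at h3
      have h6 : N < b ∅ := by omega
      have h7 : b ∅ ≤ b ∅ + b univ + (h - 2) * b ∅ := by
        rw [add_assoc]; exact Nat.le_add_right _ _
      omega
    · rw [h4] at h3
      have h6 : N < b {p0} := by omega
      have h7 : b ∅ + b univ ≤ b ∅ + b univ + (h - 2) * b ∅ := Nat.le_add_right _ _
      omega
  · have hS : ∀ Z, S Z ∈ reps A h (b ∅ + b univ + (h - 2) * b ∅) := by
      intro Z
      refine ⟨?_, ?_, ?_⟩
      · simp only [S, Multiset.card_add, Multiset.card_replicate, Multiset.insert_eq_cons,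
          Multiset.card_cons, Multiset.card_singleton]
        omega
      · intro a ha
        simp only [S, Multiset.mem_add, Multiset.insert_eq_cons, Multiset.mem_cons,
          Multiset.mem_singleton] at ha
        rcases ha with (rfl | rfl) | ha
        · exact hbA _
        · exact hbA _
        · rw [Multiset.eq_of_mem_replicate ha]
          exact hbA _
      · simp only [S, Multiset.sum_add, Multiset.sum_replicate, Multiset.insert_eq_cons,
          Multiset.sum_cons, Multiset.sum_singleton, smul_eq_mul]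
        rw [hcompl]
    have hSinj : Set.InjOn S ((T.erase p0).powerset : Set (Finset (Fin s))) := by
      intro Z hZ Z' hZ' he
      have hZs : Z ⊆ T.erase p0 := Finset.mem_powerset.1 hZ
      have hZs' : Z' ⊆ T.erase p0 := Finset.mem_powerset.1 hZ'
      have h1 := add_right_cancel he
      have h2 : b Z ∈ ({b Z', b Z'ᶜ} : Multiset ℕ) := by
        rw [← h1]
        simp
      simp only [Multiset.insert_eq_cons, Multiset.mem_cons, Multiset.mem_singleton] at h2
      rcases h2 with h2 | h2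
      · by_contra hne
        apply hbne Z Z' ?_ h2
        by_contra hc
        push Not at hc
        apply hne
        ext p
        constructor
        · intro hp
          exact (hc p (Finset.mem_of_mem_erase (hZs hp))).1 hp
        · intro hp
          exact (hc p (Finset.mem_of_mem_erase (hZs' hp))).2 hp
      · exfalso
        apply hbne Z Z'ᶜ ⟨p0, hp0, ?_⟩ h2
        intro hc
        have h3 : p0 ∉ Z := fun hp => by simpa using hZs hp
        have h4 : p0 ∉ Z' := fun hp => by simpa using hZs' hp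
        exact h3 (hc.2 (by simpa using h4))
    have h1 : ((((T.erase p0).powerset).image S : Finset (Multiset ℕ)) :
        Set (Multiset ℕ)).encard ≤ (reps A h (b ∅ + b univ + (h - 2) * b ∅)).encard := by
      apply Set.encard_le_encard
      intro x hx
      rw [Finset.coe_image] at hx
      obtain ⟨Z, -, rfl⟩ := hx
      exact hS Z
    rw [Set.encard_coe_eq_coe_finsetCard, Finset.card_image_of_injOn hSinj, card_powerset,
      card_erase_of_mem hp0] at h1
    refine le_trans ?_ h1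
    have h2 : (s + h - 1) / h - 1 ≤ T.card - 1 := by
      apply Nat.sub_le_sub_right
      have h3 : (s + h - 1) / h < T.card + 1 := by
        rw [Nat.div_lt_iff_lt_mul (by omega), add_mul, one_mul, mul_comm]
        omega
      omega
    exact_mod_cast Nat.pow_le_pow_right (by norm_num) h2

end Pool.Agent.Q247.ET
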