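import Pool.Agent.Q247.ET.Core
import Pool.Agent.Q247.ET.Carry

/-!
# MP_d5a1e1_nt: the Erdős–Turán conjecture for bases with few carries

Let `g ≥ 2`. The carry into the `i`-th place in the addition of `a_1, ..., a_h` in base `g` is
`⌊(∑_j (a_j mod g ^ i)) / g ^ i⌋`, and `carries g a` is the sum of all carries, so that
`∑_j ds (a_j) = ds (∑_j a_j) + (g - 1) * carries g a`, where `ds` is the sum of the digits in
base `g`.

1. Let `h ≥ 2`, `L ≥ 1`, `h L (c + 1) + c ≤ s`. If every large `n` **with digit sum `s`** is a sum of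
   `h` elements of `A` with carries at most `c`, then `r_{A,h}(m) ≥ C(2L-1, L)` for infinitely
   many `m`.
2. If `ε (h L + 1) < 1` and every large `n` is a sum of `h` elements of `A` with carries at most
   `ε ds n + C`, then `r_{A,h}(m) ≥ C(2L-1, L)` for infinitely many `m`.
3. If for every `ε > 0` there is `C` such that all large `n` are sums of `h` elements of `A` with
   carries at most `ε ds n + C`, then `r_{A,h}` is unbounded.
4. So if `r_{A,h} ≤ K` then, in every base `g` and for every large `s`, there are infinitely many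
   `n` with digit sum `s` such that every representation of `n` as a sum of `h` elements of `A` has
   at least `ε s` carries, where `ε > 0` depends only on `h` and `K`.

Method. The numbers `n = ∑_p g ^ c G ^ (y p)`, `G = g ^ (c + 1)`, `y 0 < ... < y (s-1)`, have digit sum
`s`. If `n` is the sum of the `a_j` with carries at most `c`, then a carry out of a block of `c + 1`
digits would run through the `c` zero digits at the bottom of the next block; so there is none, and
the `a_j` have base-`G` digits only at the places `y p`, where they add up to `g ^ c`; with the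
exception of `c` places one of these digits is `g ^ c` and the others are `0`. By Ramsey's theorem
the pattern of the digits may be assumed not to depend on `y`, and all numbers with the pattern of
one suitable summand are in `A`. This pattern contains `L` consecutive nonzero digits equal to `g ^ c`,
and exchanging the places of these `L` digits with `L` further places gives many pairs of
elements of `A` with the same sum.
-/

set_option autoImplicit false

namespace Pool.Agent.Q247.ET.FewCarries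

open Finset Pool.Agent.Q247.ET

/-- The number of unordered representations of `n` as a sum of `h` elements of `A`. -/
noncomputable def r (A : Set ℕ) (h n : ℕ) : ℕ :=
  Set.ncard {s : Multiset ℕ | Multiset.card s = h ∧ (∀ a ∈ s, a ∈ A) ∧ s.sum = n}

/-- The sum of the digits of `n` in base `g`. -/
def ds (g n : ℕ) : ℕ := (Nat.digits g n).sum

/-- The sum of the carries in the addition of `a 0, ..., a (h-1)` in base `g`. The carry into the
`(i+1)`-st place is the integer part of `(∑ j, a j mod g ^ (i+1)) / g ^ (i+1)`; it is zero for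
`i ≥ ∑ j, a j`. -/
def carries (g : ℕ) {h : ℕ} (a : Fin h → ℕ) : ℕ :=
  ∑ i ∈ range (∑ j, a j), (∑ j, a j % g ^ (i + 1)) / g ^ (i + 1)

theorem ds_add {g h : ℕ} (hg : 2 ≤ g) (a : Fin h → ℕ) :
    ∑ j, ds g (a j) = ds g (∑ j, a j) + (g - 1) * carries g a := by
  obtain ⟨n, hn⟩ : ∃ n, n = ∑ j, a j := ⟨_, rfl⟩
  have hnR : n < g ^ n := Nat.lt_pow_self (by omega)
  have haR : ∀ j, a j < g ^ n := fun j => lt_of_le_of_lt (by
    rw [hn]
    exact Finset.single_le_sum (f := a) (fun _ _ => Nat.zero_le _) (mem_univ j)) hnR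
  have h1 := legendre hg n n hnR
  have h2 : ∑ j, ((Nat.digits g (a j)).sum + (g - 1) * ∑ i ∈ range n, a j / g ^ (i + 1)) = n := by
    rw [hn]
    exact Finset.sum_congr rfl fun j _ => by rw [← hn]; exact legendre hg n _ (haR j)
  rw [Finset.sum_add_distrib, ← Finset.mul_sum, Finset.sum_comm] at h2
  have h3 : carries g a + ∑ i ∈ range n, ∑ j, a j / g ^ (i + 1) =
      ∑ i ∈ range n, n / g ^ (i + 1) := by
    unfold carries
    rw [← hn, ← Finset.sum_add_distrib]
    refine Finset.sum_congr rfl fun i _ => ?_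
    have h4 : n = ∑ j, a j % g ^ (i + 1) + g ^ (i + 1) * ∑ j, a j / g ^ (i + 1) := by
      rw [hn, Finset.mul_sum, ← Finset.sum_add_distrib]
      exact Finset.sum_congr rfl fun j _ => (Nat.mod_add_div _ _).symm
    conv_rhs => rw [h4]
    rw [Nat.add_mul_div_left _ _ (pow_pos (by omega) _)]
  rw [← h3, mul_add] at h1
  unfold ds
  rw [← hn]
  omega

theorem reps_finite (A : Set ℕ) (h n : ℕ) : (reps A h n).Finite := by
  rw [reps_eq_image]
  apply Set.Finite.image
  refine (Set.finite_Iic (fun _ : Fin h => n)).subset ?_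
  rintro f ⟨-, hf⟩
  intro i
  rw [← hf]
  exact Finset.single_le_sum (f := f) (fun _ _ => Nat.zero_le _) (mem_univ i)

theorem main {g h L s c : ℕ} {A : Set ℕ} (hg : 2 ≤ g) (hh : 2 ≤ h) (hL : 1 ≤ L)
    (hs : h * L * (c + 1) + c ≤ s)
    (hyp : ∃ N, ∀ n ≥ N, ds g n = s → ∃ a : Fin h → ℕ, (∀ j, a j ∈ A) ∧ ∑ j, a j = n ∧
      carries g a ≤ c) (N : ℕ) : ∃ n ≥ N, (2 * L - 1).choose L ≤ r A h n := by
  obtain ⟨N0, hN0⟩ := hyp
  have hgp : ∀ i, 0 < g ^ i := fun i => pow_pos (by omega) i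
  have hG : 2 ≤ g ^ (c + 1) := by
    calc 2 ≤ g := hg
      _ = g ^ 1 := (pow_one g).symm
      _ ≤ g ^ (c + 1) := Nat.pow_le_pow_right (by omega) (by omega)
  have hspos : 0 < s := by
    have h1 : 0 < h * L * (c + 1) := by positivity
    omega
  obtain ⟨n, hn, hn2⟩ := core (A := A) (D := g ^ c) hh hG (hgp c) hL hs (max N0 N) (by
    intro y hy hy0
    have hmono : StrictMono (fun p => (c + 1) * y p + c) := fun p q hpq => by
      have h1 := hy hpq
      have h2 : (c + 1) * y p < (c + 1) * y q := Nat.mul_lt_mul_of_pos_left h1 (Nat.succ_pos c)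
      show (c + 1) * y p + c < (c + 1) * y q + c
      omega
    have hpow : ∑ p, g ^ c * (g ^ (c + 1)) ^ (y p) = ∑ p, g ^ ((c + 1) * y p + c) :=
      Finset.sum_congr rfl fun p _ => by rw [← pow_mul, ← pow_add, add_comm]
    have hds : ds g (∑ p, g ^ c * (g ^ (c + 1)) ^ (y p)) = s := by
      rw [hpow]
      exact digitSum_pows hg s _ hmono
    have hlarge : N0 ≤ ∑ p, g ^ c * (g ^ (c + 1)) ^ (y p) := by
      have h1 := hy0 ⟨0, hspos⟩
      have h2 : y ⟨0, hspos⟩ < (g ^ (c + 1)) ^ (y ⟨0, hspos⟩) := Nat.lt_pow_self (by omega)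
      have h3 : (g ^ (c + 1)) ^ (y ⟨0, hspos⟩) ≤ g ^ c * (g ^ (c + 1)) ^ (y ⟨0, hspos⟩) :=
        Nat.le_mul_of_pos_left _ (hgp c)
      have h4 : g ^ c * (g ^ (c + 1)) ^ (y ⟨0, hspos⟩) ≤ ∑ p, g ^ c * (g ^ (c + 1)) ^ (y p) :=
        Finset.single_le_sum (f := fun p => g ^ c * (g ^ (c + 1)) ^ (y p))
          (fun _ _ => Nat.zero_le _) (mem_univ _)
      have h5 : N0 ≤ max N0 N := le_max_left _ _
      omega
    obtain ⟨a, haA, hasum, hacar⟩ := hN0 _ hlarge hds
    have hsumds : ∑ j, (Nat.digits g (a j)).sum < s + (g - 1) * (c + 1) := by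
      have h1 := ds_add hg a
      rw [hasum, hds] at h1
      unfold ds at h1
      rw [h1]
      have h2 : (g - 1) * carries g a < (g - 1) * (c + 1) :=
        Nat.mul_lt_mul_of_pos_left (by omega) (by omega)
      omega
    obtain ⟨x, hx1, hx2, hx3⟩ := carry hg y hy a hasum hsumds
    refine ⟨x, hx1, hx2, fun j => ?_⟩
    rw [← hx3 j]
    exact haA j)
  refine ⟨n, (le_max_right _ _).trans hn, ?_⟩
  have h1 : ((r A h n : ℕ) : ℕ∞) = (reps A h n).encard := (reps_finite A h n).cast_ncard_eq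
  rw [← h1] at hn2
  exact_mod_cast hn2

theorem main_eps {g h L : ℕ} {A : Set ℕ} (hg : 2 ≤ g) (hh : 2 ≤ h) (hL : 1 ≤ L) {ε C : ℝ}
    (hε : 0 ≤ ε) (hεL : ε * (h * L + 1) < 1)
    (hyp : ∃ N, ∀ n ≥ N, ∃ a : Fin h → ℕ, (∀ j, a j ∈ A) ∧ ∑ j, a j = n ∧
      (carries g a : ℝ) ≤ ε * ds g n + C) (N : ℕ) : ∃ n ≥ N, (2 * L - 1).choose L ≤ r A h n := by
  obtain ⟨N0, hN0⟩ := hyp
  have hpos : 0 < 1 - ε * (h * L + 1) := by linarith
  obtain ⟨c, hc⟩ := exists_nat_gt (C / (1 - ε * (h * L + 1)))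
  rw [div_lt_iff₀ hpos] at hc
  refine main (c := c) (s := h * L * (c + 1) + c) hg hh hL le_rfl ⟨N0, fun n hn hs => ?_⟩ N
  obtain ⟨a, haA, hasum, hacar⟩ := hN0 n hn
  refine ⟨a, haA, hasum, ?_⟩
  have h1 : (carries g a : ℝ) < c + 1 := by
    refine lt_of_le_of_lt hacar ?_
    rw [hs]
    push_cast
    have h2 : ε * ((h : ℝ) * L * (c + 1) + c) ≤ ε * (h * L + 1) * (c + 1) := by
      have h3 : (h : ℝ) * L * (c + 1) + c ≤ (h * L + 1) * (c + 1) := by nlinarith
      calc ε * ((h : ℝ) * L * (c + 1) + c) ≤ ε * ((h * L + 1) * (c + 1)) :=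
            mul_le_mul_of_nonneg_left h3 hε
        _ = ε * (h * L + 1) * (c + 1) := by ring
    nlinarith
  have h2 : ((carries g a : ℕ) : ℝ) < ((c + 1 : ℕ) : ℝ) := by push_cast; exact h1
  have h3 : carries g a < c + 1 := by exact_mod_cast h2
  omega

/-- **The Erdős–Turán conjecture for bases with few carries.** -/
theorem few_carries :
    -- the number of carries and the sums of the digits
    (∀ g h : ℕ, 2 ≤ g → ∀ a : Fin h → ℕ,
      ∑ j, ds g (a j) = ds g (∑ j, a j) + (g - 1) * carries g a) ∧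
    -- 1. one digit sum
    (∀ (g h L s c : ℕ) (A : Set ℕ), 2 ≤ g → 2 ≤ h → 1 ≤ L → h * L * (c + 1) + c ≤ s →
      (∃ N, ∀ n ≥ N, ds g n = s → ∃ a : Fin h → ℕ, (∀ j, a j ∈ A) ∧ ∑ j, a j = n ∧
        carries g a ≤ c) →
      ∀ N, ∃ n ≥ N, (2 * L - 1).choose L ≤ r A h n) ∧
    -- 2. at most `ε ds n + C` carries, `ε (h L + 1) < 1`
    (∀ (g h L : ℕ) (A : Set ℕ) (ε C : ℝ), 2 ≤ g → 2 ≤ h → 1 ≤ L → 0 ≤ ε → ε * (h * L + 1) < 1 →
      (∃ N, ∀ n ≥ N, ∃ a : Fin h → ℕ, (∀ j, a j ∈ A) ∧ ∑ j, a j = n ∧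
        (carries g a : ℝ) ≤ ε * ds g n + C) →
      ∀ N, ∃ n ≥ N, (2 * L - 1).choose L ≤ r A h n) ∧
    -- 3. `o(ds n) + O(1)` carries
    (∀ (g h : ℕ) (A : Set ℕ), 2 ≤ g → 2 ≤ h →
      (∀ ε : ℝ, 0 < ε → ∃ (C : ℝ) (N : ℕ), ∀ n ≥ N, ∃ a : Fin h → ℕ, (∀ j, a j ∈ A) ∧
        ∑ j, a j = n ∧ (carries g a : ℝ) ≤ ε * ds g n + C) →
      ∀ K N : ℕ, ∃ n ≥ N, K < r A h n) ∧
    -- 4. counterexamples need many carries in every base
    (∀ h K : ℕ, 2 ≤ h → ∃ (ε : ℝ) (s₀ : ℕ), 0 < ε ∧ ∀ A : Set ℕ, (∀ n, r A h n ≤ K) →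
      ∀ g : ℕ, 2 ≤ g → ∀ s ≥ s₀, ∀ N, ∃ n ≥ N, ds g n = s ∧
        ∀ a : Fin h → ℕ, (∀ j, a j ∈ A) → ∑ j, a j = n → ε * s ≤ carries g a) := by
  refine ⟨fun g h hg a => ds_add hg a,
    fun g h L s c A hg hh hL hs hyp N => main hg hh hL hs hyp N,
    fun g h L A ε C hg hh hL hε hεL hyp N => main_eps hg hh hL hε hεL hyp N, ?_, ?_⟩
  · intro g h A hg hh hyp K N
    have hpos : (0 : ℝ) < 1 / (2 * ((h : ℝ) * (K + 2 : ℕ) + 1)) := by positivity
    obtain ⟨C, N0, hN0⟩ := hyp _ hpos
    obtain ⟨n, hn, hn2⟩ := main_eps (L := K + 2) hg hh (by omega) hpos.le (by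
      have h1 : (0 : ℝ) < (h : ℝ) * (K + 2 : ℕ) + 1 := by positivity
      rw [one_div, mul_inv, mul_assoc, inv_mul_cancel₀ h1.ne']
      norm_num) ⟨N0, hN0⟩ N
    refine ⟨n, hn, lt_of_lt_of_le ?_ hn2⟩
    have h1 : (K + 2 + 1).choose (K + 2) ≤ (2 * (K + 2) - 1).choose (K + 2) :=
      Nat.choose_le_choose _ (by omega)
    rw [Nat.choose_succ_self_right] at h1
    omega
  · intro h K hh
    have hchoose : K < (2 * (K + 2) - 1).choose (K + 2) := by
      have h1 : (K + 2 + 1).choose (K + 2) ≤ (2 * (K + 2) - 1).choose (K + 2) :=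
        Nat.choose_le_choose _ (by omega)
      rw [Nat.choose_succ_self_right] at h1
      omega
    obtain ⟨T, hT⟩ : ∃ T : ℕ, T = h * (K + 2) + 1 := ⟨_, rfl⟩
    have hTpos : 0 < T := by omega
    refine ⟨1 / (2 * T), 2 * T, by positivity, fun A hK g hg s hs N => ?_⟩
    -- the number of carries
    obtain ⟨c, hc⟩ : ∃ c, c + 1 = (s + 1) / T := by
      have h1 : 1 ≤ (s + 1) / T := by
        rw [Nat.le_div_iff_mul_le hTpos]
        omega
      exact ⟨(s + 1) / T - 1, by omega⟩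
    have hcs : h * (K + 2) * (c + 1) + c ≤ s := by
      have h1 : T * (c + 1) ≤ s + 1 := by
        rw [hc]
        exact Nat.mul_div_le _ _
      rw [hT, add_mul, one_mul] at h1
      omega
    by_contra hcon
    push Not at hcon
    have h1 := main (A := A) (L := K + 2) (s := s) (c := c) hg hh (by omega) hcs ⟨N, fun n hn hds => by
      obtain ⟨a, haA, hasum, hacar⟩ := hcon n hn hds
      refine ⟨a, haA, hasum, ?_⟩
      have h2 : s + 1 < T * (c + 1 + 1) := by
        rw [hc]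
        have := Nat.lt_mul_div_succ (s + 1) hTpos
        exact this
      have h3 : ((s : ℝ) + 1) < T * (c + 1 + 1) := by exact_mod_cast h2
      have hTR : (0 : ℝ) < T := by exact_mod_cast hTpos
      have h4 : (1 / (2 * (T : ℝ))) * s < (c + 1 + 1) / 2 := by
        rw [div_mul_eq_mul_div, one_mul, div_lt_div_iff₀ (by positivity) (by norm_num)]
        nlinarith
      have h5 : (carries g a : ℝ) < (c + 1 + 1) / 2 := hacar.trans h4
      have h6 : (carries g a : ℝ) * 2 < c + 1 + 1 := by linarith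
      have h7 : carries g a * 2 < c + 1 + 1 := by exact_mod_cast h6
      omega⟩ 0
    obtain ⟨n, -, hn⟩ := h1
    have := hK n
    omega

end Pool.Agent.Q247.ET.FewCarries
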