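import Mathlib

/-!
# The infinite Ramsey theorem for strictly increasing tuples

The theorem `inf_ramsey` is taken from the starting file `Pool/Agent/Helper291/IPRCore.lean`.
-/

set_option autoImplicit false

namespace Pool.Agent.Q247.ET.Ram

theorem lim_exists {κ : Type} [Finite κ] (U : Ultrafilter ℕ) (h : ℕ → κ) :
    ∃ c, ∀ᶠ n in (U : Filter ℕ), h n = c := by
  obtain ⟨c, hc⟩ := Ultrafilter.eq_pure_of_finite (U.map h)
  refine ⟨c, ?_⟩
  have h1 : {c} ∈ U.map h := by rw [hc]; exact Filter.mem_pure.2 rfl
  rw [Ultrafilter.mem_map] at h1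
  exact h1

open Classical in
/-- iterated limit colourings -/
noncomputable def iter {κ : Type} [Finite κ] (U : Ultrafilter ℕ) (f : Finset ℕ → κ) :
    ℕ → Finset ℕ → κ
  | 0 => f
  | (i + 1) => fun s => (lim_exists U (fun n => iter U f i (insert n s))).choose

theorem iter_spec {κ : Type} [Finite κ] (U : Ultrafilter ℕ) (f : Finset ℕ → κ) (i : ℕ)
    (s : Finset ℕ) : ∀ᶠ n in (U : Filter ℕ), iter U f i (insert n s) = iter U f (i + 1) s :=
  (lim_exists U (fun n => iter U f i (insert n s))).choose_spec

/-- The infinite Ramsey theorem for `k`-subsets of the natural numbers. -/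
theorem inf_ramsey {κ : Type} [Finite κ] (k : ℕ) (f : Finset ℕ → κ) :
    ∃ φ : ℕ → ℕ, StrictMono φ ∧ ∃ c, ∀ J : Finset ℕ, J.card = k → f (J.image φ) = c := by
  classical
  set U : Ultrafilter ℕ := Filter.hyperfilter ℕ with hU
  have hstep : ∀ A : Finset ℕ, ∃ n : ℕ, (∀ a ∈ A, a < n) ∧
      ∀ s ∈ A.powerset, ∀ i ∈ Finset.range k, iter U f i (insert n s) = iter U f (i + 1) s := by
    intro A
    have h1 : ∀ᶠ n in (U : Filter ℕ), ∀ a ∈ A, a < n := by
      rw [Filter.eventually_all_finset]
      intro a _
      have h2 : ∀ᶠ n in Filter.atTop, a < n := Filter.eventually_gt_atTop a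
      rw [← Nat.cofinite_eq_atTop] at h2
      exact Filter.hyperfilter_le_cofinite h2
    have h2 : ∀ᶠ n in (U : Filter ℕ), ∀ s ∈ A.powerset, ∀ i ∈ Finset.range k,
        iter U f i (insert n s) = iter U f (i + 1) s := by
      rw [Filter.eventually_all_finset]
      intro s _
      rw [Filter.eventually_all_finset]
      intro i _
      exact iter_spec U f i s
    exact (h1.and h2).exists
  choose g hg1 hg2 using hstep
  set A : ℕ → Finset ℕ := fun m => Nat.rec ∅ (fun _ B => insert (g B) B) m with hA
  have hA0 : A 0 = ∅ := rfl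
  have hAs : ∀ m, A (m + 1) = insert (g (A m)) (A m) := fun m => rfl
  have hAmono : ∀ m n, m ≤ n → A m ⊆ A n := by
    intro m n h
    induction n, h using Nat.le_induction with
    | base => exact Finset.Subset.refl _
    | succ n _ ih => rw [hAs]; exact ih.trans (Finset.subset_insert _ _)
  set φ : ℕ → ℕ := fun m => g (A m) with hφ
  have hφmem : ∀ m n, m < n → φ m ∈ A n := by
    intro m n h
    apply hAmono (m + 1) n h
    rw [hAs]
    exact Finset.mem_insert_self _ _
  refine ⟨φ, ?_, iter U f k ∅, ?_⟩
  · intro m n h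
    exact hg1 _ _ (hφmem m n h)
  · have key : ∀ J : Finset ℕ, J.card ≤ k → iter U f (k - J.card) (J.image φ) = iter U f k ∅ := by
      intro J
      induction J using Finset.induction_on_max with
      | empty => intro _; simp
      | insert m J hm ih =>
        intro hc
        have hmJ : m ∉ J := fun h => lt_irrefl _ (hm m h)
        rw [Finset.card_insert_of_notMem hmJ] at hc ⊢
        rw [Finset.image_insert]
        have hsub : J.image φ ∈ (A m).powerset := by
          rw [Finset.mem_powerset]
          intro x hx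
          rw [Finset.mem_image] at hx
          obtain ⟨j, hj, rfl⟩ := hx
          exact hφmem j m (hm j hj)
        have := hg2 (A m) _ hsub (k - (J.card + 1)) (by rw [Finset.mem_range]; omega)
        rw [show φ m = g (A m) from rfl, this, show k - (J.card + 1) + 1 = k - J.card by omega]
        exact ih (by omega)
    intro J hJ
    have := key J hJ.le
    rw [hJ, Nat.sub_self] at this
    exact this

/-- the form for strictly increasing tuples -/
theorem ramsey_tuple {κ : Type} [Finite κ] (k : ℕ) (F : (Fin k → ℕ) → κ) :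
    ∃ φ : ℕ → ℕ, StrictMono φ ∧ ∃ c, ∀ y : Fin k → ℕ, StrictMono y → F (fun p => φ (y p)) = c := by
  classical
  obtain ⟨φ, hφ, c, hc⟩ := inf_ramsey k (fun J : Finset ℕ =>
    if h : J.card = k then some (F (J.orderEmbOfFin h)) else none)
  have key : ∀ y : Fin k → ℕ, StrictMono y → some (F (fun p => φ (y p))) = c := by
    intro y hy
    have h1 : (Finset.univ.image y).card = k := by
      rw [Finset.card_image_of_injective _ hy.injective]; simp
    have h2 := hc _ h1
    have h3 : ((Finset.univ.image y).image φ).card = k := by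
      rw [Finset.card_image_of_injective _ hφ.injective]; exact h1
    rw [dif_pos h3] at h2
    have h4 : (fun p => φ (y p)) = (((Finset.univ.image y).image φ).orderEmbOfFin h3) :=
      Finset.orderEmbOfFin_unique h3 (fun p => Finset.mem_image_of_mem _
        (Finset.mem_image_of_mem _ (Finset.mem_univ p))) (hφ.comp hy)
    rw [h4]
    exact h2
  have h0 := key (fun p => (p : ℕ)) (fun a b h => h)
  obtain ⟨c', rfl⟩ : ∃ c', c = some c' := ⟨_, h0.symm⟩
  exact ⟨φ, hφ, c', fun y hy => Option.some.inj (key y hy)⟩

end Pool.Agent.Q247.ET.Ram
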